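import Pool.Agent.Q75.IS.LBM

/-!
Project IS (helper75): job BND.
-/

set_option autoImplicit false

open Finset MeasureTheory ProbabilityTheory Filter Topology

namespace Pool.Agent.Q75.IS

theorem tr_law {p : ℕ → ℝ} (hp : ∀ i, 0 ≤ p i) (h1 : HasSum p 1) {M : ℕ} (hM : 2 ≤ M) :
    Law (tr p M) M := by
  have hr : 0 ≤ 1 - ∑ i ∈ range (M - 2), p i := by
    have := sum_le_hasSum (range (M - 2)) (fun i _ => hp i) h1
    linarith
  refine ⟨?_, ?_, hM⟩
  · intro e
    unfold tr
    split_ifs
    · exact hr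
    · exact le_rfl
    · exact hp _
  · have hr' : range M = insert 0 (insert 1 (Ico 2 M)) := by
      ext x; simp only [Finset.mem_range, Finset.mem_insert, Finset.mem_Ico]; omega
    rw [hr', Finset.sum_insert (by simp), Finset.sum_insert (by simp)]
    have h2 : ∑ e ∈ Ico 2 M, tr p M e = ∑ i ∈ range (M - 2), p i := by
      rw [Finset.sum_Ico_eq_sum_range]
      refine Finset.sum_congr rfl fun i _ => ?_
      unfold tr
      rw [if_neg (by omega), if_neg (by omega)]
      congr 1; omega
    rw [h2]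
    simp [tr]

theorem FF_tr (p : ℕ → ℝ) (M n : ℕ) (a : ℝ) :
    FF (tr p M) M 2 a n = a * n + ∑ i ∈ range (M - 2), p i / (p i + a) := by
  unfold FF
  congr 1
  rw [Finset.sum_Ico_eq_sum_range]
  refine Finset.sum_congr rfl fun i _ => ?_
  have : tr p M (2 + i) = p i := by
    unfold tr
    rw [if_neg (by omega), if_neg (by omega)]
    congr 1; omega
  rw [this]

theorem t_BND (hEL : S_EL) (hU : S_UPM) (hL : S_LBM) (hFM : S_FM) : S_BND := by
  intro Ω _ μ _ X p hS
  have hlim := fun n => (hEL Ω μ X p hS n).2.1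
  constructor
  · intro n hn
    have hn0 : (0 : ℝ) < n := by exact_mod_cast hn
    have hs : 0 < Real.sqrt n := Real.sqrt_pos.mpr hn0
    have hk : 0 < 1 + 1 / Real.sqrt n := by positivity
    -- each value of the set is an upper bound after multiplication
    have key : ∀ y ∈ {y : ℝ | ∃ x : ℝ, 0 ≤ x ∧ Summable (fun i => n * p i / (n * p i + x)) ∧
        y = x + ∑' i, n * p i / (n * p i + x)},
        ∫ ω, (LIS (fun k => X k ω) n : ℝ) ∂μ ≤ (1 + 1 / Real.sqrt n) * y := by
      rintro y ⟨x, hx, hsum, rfl⟩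
      refine le_of_tendsto (hlim n) ?_
      filter_upwards [eventually_ge_atTop 2] with M hM
      have h1 := hU (tr p M) M n (x / n) (tr_law hS.nonneg hS.sum hM) hn (by positivity)
      refine h1.trans (mul_le_mul_of_nonneg_left ?_ hk.le)
      rw [FF_tr]
      have e1 : x / n * n = x := by field_simp
      rw [e1]
      have e2 : ∀ i, p i / (p i + x / n) = n * p i / (n * p i + x) := by
        intro i
        have : n * p i + x = n * (p i + x / n) := by field_simp
        rw [this, mul_div_mul_left _ _ hn0.ne']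
      have e3 : ∑ i ∈ range (M - 2), p i / (p i + x / n) ≤ ∑' i, n * p i / (n * p i + x) := by
        simp_rw [e2]
        refine hsum.sum_le_tsum _ fun i _ => ?_
        have := hS.nonneg i
        positivity
      linarith
    have hne : {y : ℝ | ∃ x : ℝ, 0 ≤ x ∧ Summable (fun i => n * p i / (n * p i + x)) ∧
        y = x + ∑' i, n * p i / (n * p i + x)}.Nonempty := by
      refine ⟨_, 1, zero_le_one, ?_, rfl⟩
      refine Summable.of_nonneg_of_le (fun i => ?_) (fun i => ?_) (hS.sum.summable.mul_left (n : ℝ))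
      · have := hS.nonneg i; positivity
      · have := hS.nonneg i
        apply div_le_self (by positivity)
        have : 0 ≤ (n : ℝ) * p i := by positivity
        linarith
    have h3 : (∫ ω, (LIS (fun k => X k ω) n : ℝ) ∂μ) / (1 + 1 / Real.sqrt n) ≤ fI p n := by
      unfold fI
      refine le_csInf hne fun y hy => ?_
      rw [div_le_iff₀ hk, mul_comm]
      exact key y hy
    rw [div_le_iff₀ hk, mul_comm] at h3
    exact h3
  · intro ε hε hε1
    obtain ⟨C, hC⟩ := hL ε hε
    refine ⟨C + 1, fun n hn hCn => ?_⟩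
    -- tail mass tends to zero
    have htail : Tendsto (fun M : ℕ => (n + 1 : ℝ) * Real.sqrt (1 - ∑ i ∈ range (M - 2), p i)) atTop
        (𝓝 0) := by
      have h1 : Tendsto (fun M : ℕ => ∑ i ∈ range (M - 2), p i) atTop (𝓝 1) :=
        hS.sum.tendsto_sum_nat.comp (tendsto_sub_atTop_nat 2)
      have h2 : Tendsto (fun M : ℕ => 1 - ∑ i ∈ range (M - 2), p i) atTop (𝓝 (1 - 1)) :=
        tendsto_const_nhds.sub h1
      have h3 := (Real.continuous_sqrt.tendsto _).comp h2
      have h4 := h3.const_mul (n + 1 : ℝ)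
      simpa using h4
    have hlow : Tendsto (fun M : ℕ => (1 - ε) * (fI p n -
        (n + 1 : ℝ) * Real.sqrt (1 - ∑ i ∈ range (M - 2), p i))) atTop (𝓝 ((1 - ε) * (fI p n - 0))) :=
      (tendsto_const_nhds.sub htail).const_mul _
    rw [sub_zero] at hlow
    refine le_of_tendsto_of_tendsto hlow (hlim n) ?_
    have ev1 : ∀ᶠ M : ℕ in atTop, (n + 1 : ℝ) * Real.sqrt (1 - ∑ i ∈ range (M - 2), p i) < 1 :=
      htail.eventually_lt_const one_pos
    filter_upwards [ev1, eventually_ge_atTop 2] with M hM1 hM2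
    have hFMn := fun a (ha : 0 ≤ a) => hFM p hS.nonneg hS.sum n M a hn hM2 ha
    obtain ⟨a, ha, h5⟩ := hC (tr p M) M n (tr_law hS.nonneg hS.sum hM2) hn
      (fun a ha => by have := hFMn a ha; linarith)
    refine le_trans ?_ h5
    exact mul_le_mul_of_nonneg_left (hFMn a ha) (by linarith)

end Pool.Agent.Q75.IS
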