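import Pool.Agent.Q75.IS.Defs

/-!
Project IS (helper75): elementary facts on `lis`, `Ex`, `Eb`, `del`, `step`, for everybody.
-/

set_option autoImplicit false

open Finset

namespace Pool.Agent.Q75.IS

/-! ### lis -/

theorem lis_nil (b : ℕ) : lis b [] = 0 := rfl

theorem lis_cons_ge {b x : ℕ} (h : b ≤ x) (w : List ℕ) :
    lis b (x :: w) = max (lis b w) (1 + lis (x + 1) w) := by
  simp [lis, h]

theorem lis_cons_lt {b x : ℕ} (h : x < b) (w : List ℕ) : lis b (x :: w) = lis b w := by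
  simp [lis, Nat.not_le.mpr h]

theorem lis_le_cons (b x : ℕ) (w : List ℕ) : lis b w ≤ lis b (x :: w) := by
  by_cases h : b ≤ x
  · rw [lis_cons_ge h]; exact le_max_left _ _
  · rw [lis_cons_lt (Nat.lt_of_not_le h)]

theorem lis_anti {b c : ℕ} (h : b ≤ c) (w : List ℕ) : lis c w ≤ lis b w := by
  induction w generalizing b c with
  | nil => simp [lis]
  | cons x w ih =>
    by_cases hc : c ≤ x
    · rw [lis_cons_ge hc, lis_cons_ge (h.trans hc)]
      exact max_le_max (ih h) le_rfl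
    · rw [lis_cons_lt (Nat.lt_of_not_le hc)]
      exact (ih h).trans (lis_le_cons _ _ _)

theorem lis_sublist {u v : List ℕ} (h : u.Sublist v) (b : ℕ) : lis b u ≤ lis b v := by
  induction h generalizing b with
  | slnil => exact le_rfl
  | cons a _ ih => exact (ih b).trans (lis_le_cons _ _ _)
  | cons_cons a _ ih =>
    by_cases hb : b ≤ a
    · rw [lis_cons_ge hb, lis_cons_ge hb]
      exact max_le_max (ih b) (Nat.add_le_add_left (ih _) 1)
    · rw [lis_cons_lt (Nat.lt_of_not_le hb), lis_cons_lt (Nat.lt_of_not_le hb)]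
      exact ih b

theorem lis_le_length (b : ℕ) (w : List ℕ) : lis b w ≤ w.length := by
  induction w generalizing b with
  | nil => simp [lis]
  | cons x w ih =>
    by_cases hb : b ≤ x
    · rw [lis_cons_ge hb, List.length_cons]
      have h1 := ih b
      have h2 := ih (x + 1)
      omega
    · rw [lis_cons_lt (Nat.lt_of_not_le hb), List.length_cons]
      have h1 := ih b
      omega

theorem lis_eq_zero {b : ℕ} {w : List ℕ} (h : ∀ x ∈ w, x < b) : lis b w = 0 := by
  induction w with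
  | nil => rfl
  | cons x w ih =>
    rw [lis_cons_lt (h x (by simp))]
    exact ih (fun y hy => h y (by simp [hy]))

/-! ### Ex -/

variable {P : ℕ → ℝ} {M : ℕ}

theorem Ex_zero (g : List ℕ → ℝ) : Ex P M 0 g = g [] := rfl

theorem Ex_succ (n : ℕ) (g : List ℕ → ℝ) :
    Ex P M (n + 1) g = ∑ e ∈ range M, P e * Ex P M n (fun w => g (e :: w)) := rfl

theorem Ex_add (n : ℕ) (g h : List ℕ → ℝ) :
    Ex P M n (fun w => g w + h w) = Ex P M n g + Ex P M n h := by
  induction n generalizing g h with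
  | zero => rfl
  | succ n ih =>
    simp only [Ex_succ]
    rw [← Finset.sum_add_distrib]
    refine Finset.sum_congr rfl fun e _ => ?_
    rw [ih, mul_add]

theorem Ex_mul (n : ℕ) (c : ℝ) (g : List ℕ → ℝ) :
    Ex P M n (fun w => c * g w) = c * Ex P M n g := by
  induction n generalizing g with
  | zero => rfl
  | succ n ih =>
    simp only [Ex_succ]
    rw [Finset.mul_sum]
    refine Finset.sum_congr rfl fun e _ => ?_
    rw [ih]; ring

theorem Ex_neg (n : ℕ) (g : List ℕ → ℝ) : Ex P M n (fun w => - g w) = - Ex P M n g := by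
  have := Ex_mul (P := P) (M := M) n (-1) g
  simpa using this

theorem Ex_sub (n : ℕ) (g h : List ℕ → ℝ) :
    Ex P M n (fun w => g w - h w) = Ex P M n g - Ex P M n h := by
  have := Ex_add (P := P) (M := M) n g (fun w => - h w)
  simp only [← sub_eq_add_neg] at this
  rw [this, Ex_neg]; ring

theorem Ex_sum {ι : Type*} (s : Finset ι) (n : ℕ) (g : ι → List ℕ → ℝ) :
    Ex P M n (fun w => ∑ i ∈ s, g i w) = ∑ i ∈ s, Ex P M n (g i) := by
  induction n generalizing g with
  | zero => rfl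
  | succ n ih =>
    simp only [Ex_succ, ih]
    simp only [Finset.mul_sum]
    rw [Finset.sum_comm]

/-- monotonicity; only words of length `n` with letters `< M` matter -/
theorem Ex_mono (hP : ∀ e, 0 ≤ P e) (n : ℕ) {g h : List ℕ → ℝ}
    (H : ∀ w : List ℕ, w.length = n → (∀ e ∈ w, e < M) → g w ≤ h w) :
    Ex P M n g ≤ Ex P M n h := by
  induction n generalizing g h with
  | zero => exact H [] rfl (by simp)
  | succ n ih =>
    simp only [Ex_succ]
    refine Finset.sum_le_sum fun e he => mul_le_mul_of_nonneg_left (ih fun w hw hm => ?_) (hP e)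
    refine H _ (by simp [hw]) ?_
    intro x hx
    rcases List.mem_cons.mp hx with h | h
    · rw [h]; exact Finset.mem_range.mp he
    · exact hm x h

theorem Ex_congr (n : ℕ) {g h : List ℕ → ℝ}
    (H : ∀ w : List ℕ, w.length = n → (∀ e ∈ w, e < M) → g w = h w) :
    Ex P M n g = Ex P M n h := by
  induction n generalizing g h with
  | zero => exact H [] rfl (by simp)
  | succ n ih =>
    simp only [Ex_succ]
    refine Finset.sum_congr rfl fun e he => ?_
    rw [ih fun w hw hm => ?_]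
    refine H _ (by simp [hw]) ?_
    intro x hx
    rcases List.mem_cons.mp hx with h | h
    · rw [h]; exact Finset.mem_range.mp he
    · exact hm x h

theorem Ex_const (hP : Law P M) (n : ℕ) (c : ℝ) : Ex P M n (fun _ => c) = c := by
  induction n with
  | zero => rfl
  | succ n ih => simp only [Ex_succ, ih]; rw [← Finset.sum_mul, hP.sum, one_mul]

theorem Ex_nonneg (hP : ∀ e, 0 ≤ P e) (n : ℕ) {g : List ℕ → ℝ}
    (H : ∀ w : List ℕ, w.length = n → (∀ e ∈ w, e < M) → 0 ≤ g w) : 0 ≤ Ex P M n g := by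
  have h0 : Ex P M n (fun _ => (0 : ℝ)) = 0 := by
    have := Ex_mul (P := P) (M := M) n 0 (fun _ => (0 : ℝ))
    simpa using this
  rw [← h0]
  exact Ex_mono hP n H

/-- words of length `m + n` -/
theorem Ex_append (m n : ℕ) (g : List ℕ → ℝ) :
    Ex P M (m + n) g = Ex P M m (fun u => Ex P M n (fun v => g (u ++ v))) := by
  induction m generalizing g with
  | zero => simp [Ex_zero]
  | succ m ih =>
    rw [Nat.succ_add]
    simp only [Ex_succ, ih]
    rfl

/-- the square of an expectation -/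
theorem Ex_sq_le (hP : Law P M) (n : ℕ) (g : List ℕ → ℝ) :
    (Ex P M n g) ^ 2 ≤ Ex P M n (fun w => g w ^ 2) := by
  have h : 0 ≤ Ex P M n (fun w => (g w - Ex P M n g) ^ 2) :=
    Ex_nonneg hP.nonneg n (fun w _ _ => sq_nonneg _)
  have h2 : Ex P M n (fun w => (g w - Ex P M n g) ^ 2)
      = Ex P M n (fun w => g w ^ 2) - (Ex P M n g) ^ 2 := by
    have : (fun w : List ℕ => (g w - Ex P M n g) ^ 2)
        = fun w => g w ^ 2 + ((-2 * Ex P M n g) * g w + (Ex P M n g) ^ 2) := by
      funext w; ring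
    rw [this, Ex_add, Ex_add, Ex_mul, Ex_const hP]
    ring
  rw [h2] at h
  linarith

theorem Ex_comm {ι : Type*} (s : Finset ι) (c : ι → ℝ) (n : ℕ) (g : ι → List ℕ → ℝ) :
    Ex P M n (fun w => ∑ i ∈ s, c i * g i w) = ∑ i ∈ s, c i * Ex P M n (g i) := by
  rw [Ex_sum]
  refine Finset.sum_congr rfl fun i _ => ?_
  exact Ex_mul n (c i) (g i)

theorem ell_nonneg (hP : ∀ e, 0 ≤ P e) (b n : ℕ) : 0 ≤ ell P M b n :=
  Ex_nonneg hP n (fun _ _ _ => Nat.cast_nonneg _)

theorem ell_anti (hP : ∀ e, 0 ≤ P e) {b c : ℕ} (h : b ≤ c) (n : ℕ) : ell P M c n ≤ ell P M b n :=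
  Ex_mono hP n (fun w _ _ => by exact_mod_cast lis_anti h w)

/-! ### Eb -/

variable {ρ : ℕ → ℝ}

theorem Eb_add (g h : Finset ℕ → ℝ) :
    Eb ρ M (fun D => g D + h D) = Eb ρ M g + Eb ρ M h := by
  unfold Eb; rw [← Finset.sum_add_distrib]
  exact Finset.sum_congr rfl fun D _ => by ring

theorem Eb_mul (c : ℝ) (g : Finset ℕ → ℝ) : Eb ρ M (fun D => c * g D) = c * Eb ρ M g := by
  unfold Eb; rw [Finset.mul_sum]
  exact Finset.sum_congr rfl fun D _ => by ring

theorem Eb_sub (g h : Finset ℕ → ℝ) :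
    Eb ρ M (fun D => g D - h D) = Eb ρ M g - Eb ρ M h := by
  unfold Eb; rw [← Finset.sum_sub_distrib]
  exact Finset.sum_congr rfl fun D _ => by ring

theorem Eb_mono (h0 : ∀ i, 0 ≤ ρ i) (h1 : ∀ i, ρ i ≤ 1) {g h : Finset ℕ → ℝ}
    (H : ∀ D ⊆ Ico 2 M, g D ≤ h D) : Eb ρ M g ≤ Eb ρ M h := by
  unfold Eb
  refine Finset.sum_le_sum fun D hD => mul_le_mul_of_nonneg_left (H D (Finset.mem_powerset.mp hD)) ?_
  exact mul_nonneg (Finset.prod_nonneg fun i _ => h0 i)
    (Finset.prod_nonneg fun i _ => sub_nonneg.mpr (h1 i))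

theorem Eb_congr {g h : Finset ℕ → ℝ} (H : ∀ D ⊆ Ico 2 M, g D = h D) : Eb ρ M g = Eb ρ M h := by
  unfold Eb
  exact Finset.sum_congr rfl fun D hD => by rw [H D (Finset.mem_powerset.mp hD)]

theorem Eb_const (c : ℝ) : Eb ρ M (fun _ => c) = c := by
  unfold Eb
  rw [← Finset.sum_mul]
  have : ∑ D ∈ (Ico 2 M).powerset, (∏ i ∈ D, ρ i) * (∏ i ∈ Ico 2 M \ D, (1 - ρ i))
      = ∏ i ∈ Ico 2 M, (ρ i + (1 - ρ i)) := by
    rw [Finset.prod_add]
  rw [this]
  simp

theorem Eb_Ex_comm (n : ℕ) (g : Finset ℕ → List ℕ → ℝ) :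
    Eb ρ M (fun D => Ex P M n (fun w => g D w)) = Ex P M n (fun w => Eb ρ M (fun D => g D w)) := by
  unfold Eb
  rw [Ex_comm]

/-- splitting off one element `i` of the random set -/
theorem Eb_split {i : ℕ} (hi : i ∈ Ico 2 M) (g : Finset ℕ → ℝ) :
    Eb ρ M g = ∑ D ∈ (Ico 2 M \ {i}).powerset, (∏ j ∈ D, ρ j) *
      (∏ j ∈ (Ico 2 M \ {i}) \ D, (1 - ρ j)) * (ρ i * g (insert i D) + (1 - ρ i) * g D) := by
  classical
  unfold Eb
  have hI : Ico 2 M = insert i (Ico 2 M \ {i}) := by
    ext x; simp only [Finset.mem_insert, Finset.mem_sdiff, Finset.mem_singleton]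
    constructor
    · intro hx; by_cases h : x = i
      · exact Or.inl h
      · exact Or.inr ⟨hx, h⟩
    · rintro (h | h)
      · rw [h]; exact hi
      · exact h.1
  have hni : i ∉ Ico 2 M \ {i} := by simp
  conv_lhs => rw [hI]
  rw [Finset.sum_powerset_insert hni]
  rw [← Finset.sum_add_distrib]
  refine Finset.sum_congr rfl fun D hD => ?_
  have hDs := Finset.mem_powerset.mp hD
  have hiD : i ∉ D := fun h => hni (hDs h)
  have e1 : insert i (Ico 2 M \ {i}) \ D = insert i ((Ico 2 M \ {i}) \ D) := by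
    rw [Finset.insert_sdiff_of_notMem _ hiD]
  have e2 : insert i (Ico 2 M \ {i}) \ insert i D = (Ico 2 M \ {i}) \ D := by
    ext x; simp only [Finset.mem_sdiff, Finset.mem_insert, Finset.mem_singleton]
    tauto
  rw [e1, e2, Finset.prod_insert (by simp), Finset.prod_insert hiD]
  ring

/-- one more element -/
theorem Eb_succ (hM : 2 ≤ M) (g : Finset ℕ → ℝ) :
    Eb ρ (M + 1) g = ρ M * Eb ρ M (fun D => g (insert M D)) + (1 - ρ M) * Eb ρ M g := by
  have hi : M ∈ Ico 2 (M + 1) := Finset.mem_Ico.mpr ⟨hM, Nat.lt_succ_self M⟩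
  rw [Eb_split hi]
  have hI : Ico 2 (M + 1) \ {M} = Ico 2 M := by
    ext x
    simp only [Finset.mem_sdiff, Finset.mem_Ico, Finset.mem_singleton]
    omega
  rw [hI]
  unfold Eb
  rw [Finset.mul_sum, Finset.mul_sum, ← Finset.sum_add_distrib]
  exact Finset.sum_congr rfl fun D _ => by ring

/-! ### del -/

theorem del_empty {i : ℕ} {D : Finset ℕ} (h : ∀ j ∈ D, j < i) : del i D = D := by
  unfold del
  rw [dif_neg]
  rintro ⟨j, hj⟩
  have := Finset.mem_filter.mp hj
  exact absurd (h j this.1) (Nat.not_lt.mpr this.2)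

/-- if `m` is the smallest element of `D` that is `≥ i` then `del i D = D.erase m` -/
theorem del_eq {i m : ℕ} {D : Finset ℕ} (hm : m ∈ D) (him : i ≤ m)
    (h : ∀ j ∈ D, i ≤ j → m ≤ j) : del i D = D.erase m := by
  unfold del
  have hne : (D.filter (fun j => i ≤ j)).Nonempty := ⟨m, Finset.mem_filter.mpr ⟨hm, him⟩⟩
  rw [dif_pos hne]
  congr 1
  apply le_antisymm
  · exact Finset.min'_le _ _ (Finset.mem_filter.mpr ⟨hm, him⟩)
  · refine Finset.le_min' _ _ _ fun y hy => ?_
    have := Finset.mem_filter.mp hy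
    exact h y this.1 this.2

theorem del_cases (i : ℕ) (D : Finset ℕ) :
    ((∀ j ∈ D, j < i) ∧ del i D = D) ∨
    (∃ m ∈ D, i ≤ m ∧ (∀ j ∈ D, i ≤ j → m ≤ j) ∧ del i D = D.erase m) := by
  by_cases hne : (D.filter (fun j => i ≤ j)).Nonempty
  · right
    have hm := Finset.mem_filter.mp (Finset.min'_mem _ hne)
    refine ⟨(D.filter (fun j => i ≤ j)).min' hne, hm.1, hm.2, ?_, ?_⟩
    · intro j hj hij
      exact Finset.min'_le _ _ (Finset.mem_filter.mpr ⟨hj, hij⟩)
    · unfold del; rw [dif_pos hne]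
  · left
    have h : ∀ j ∈ D, j < i := by
      intro j hj
      by_contra hc
      exact hne ⟨j, Finset.mem_filter.mpr ⟨hj, Nat.le_of_not_lt hc⟩⟩
    exact ⟨h, del_empty h⟩

theorem del_subset (i : ℕ) (D : Finset ℕ) : del i D ⊆ D := by
  rcases del_cases i D with ⟨_, h⟩ | ⟨m, _, _, _, h⟩
  · rw [h]
  · rw [h]; exact Finset.erase_subset _ _

theorem step_zero (D : Finset ℕ) : step 0 D = D := by simp [step]

theorem step_one (D : Finset ℕ) : step 1 D = del 2 D := by simp [step]

theorem step_ge {e : ℕ} (he : 2 ≤ e) (D : Finset ℕ) : step e D = insert e (del e D) := by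
  unfold step
  rw [if_neg (by omega), if_neg (by omega)]

theorem run_nil (D : Finset ℕ) : run D [] = D := rfl

theorem run_cons (D : Finset ℕ) (e : ℕ) (w : List ℕ) : run D (e :: w) = run (step e D) w := rfl

theorem step_ge2 {D : Finset ℕ} (hD : ∀ j ∈ D, 2 ≤ j) (e : ℕ) : ∀ j ∈ step e D, 2 ≤ j := by
  intro j hj
  by_cases h0 : e = 0
  · subst h0; rw [step_zero] at hj; exact hD j hj
  by_cases h1 : e = 1
  · subst h1; rw [step_one] at hj; exact hD j (del_subset _ _ hj)
  rw [step_ge (by omega)] at hj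
  rcases Finset.mem_insert.mp hj with h | h
  · omega
  · exact hD j (del_subset _ _ h)

theorem step_subset {D : Finset ℕ} (hD : D ⊆ Ico 2 M) {e : ℕ} (he : e < M) :
    step e D ⊆ Ico 2 M := by
  intro j hj
  by_cases h0 : e = 0
  · subst h0; rw [step_zero] at hj; exact hD hj
  by_cases h1 : e = 1
  · subst h1; rw [step_one] at hj; exact hD (del_subset _ _ hj)
  rw [step_ge (by omega)] at hj
  rcases Finset.mem_insert.mp hj with h | h
  · rw [h]; exact Finset.mem_Ico.mpr ⟨by omega, he⟩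
  · exact hD (del_subset _ _ h)

end Pool.Agent.Q75.IS
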