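import Mathlib

/-!
Project IS (helper75): MP_6ef346_pr, longest increasing subsequences of independent integer samples.

Letters are natural numbers.  In the dynamics the letter `0` is a slot that is ignored, the letter `1` is a
source, and the letters `i ≥ 2` are the real letters.
-/

set_option autoImplicit false

open Finset

namespace Pool.Agent.Q75.IS

/-- length of the longest strictly increasing subsequence of the word `w` with all letters `≥ b` -/
def lis : ℕ → List ℕ → ℕ
  | _, [] => 0
  | b, (x :: w) => if b ≤ x then max (lis b w) (1 + lis (x + 1) w) else lis b w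

/-- expectation of `g` over words of `n` independent letters `< M` with weights `P` -/
noncomputable def Ex (P : ℕ → ℝ) (M : ℕ) : ℕ → (List ℕ → ℝ) → ℝ
  | 0, g => g []
  | (n + 1), g => ∑ e ∈ range M, P e * Ex P M n (fun w => g (e :: w))

/-- weights of a probability law on the letters `< M` -/
structure Law (P : ℕ → ℝ) (M : ℕ) : Prop where
  nonneg : ∀ e, 0 ≤ P e
  sum : ∑ e ∈ range M, P e = 1
  two : 2 ≤ M

/-- expectation of the longest increasing subsequence with letters `≥ b` in `n` slots -/
noncomputable def ell (P : ℕ → ℝ) (M b n : ℕ) : ℝ := Ex P M n (fun w => (lis b w : ℝ))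

/-- expectation over a random subset of `{2, …, M - 1}`, independent inclusions with probabilities `ρ` -/
noncomputable def Eb (ρ : ℕ → ℝ) (M : ℕ) (g : Finset ℕ → ℝ) : ℝ :=
  ∑ D ∈ (Ico 2 M).powerset, (∏ i ∈ D, ρ i) * (∏ i ∈ Ico 2 M \ D, (1 - ρ i)) * g D

/-- remove the smallest element `≥ i` (if there is one) -/
noncomputable def del (i : ℕ) (D : Finset ℕ) : Finset ℕ :=
  if h : (D.filter (fun j => i ≤ j)).Nonempty then D.erase ((D.filter (fun j => i ≤ j)).min' h) else D

/-- one slot: ignored, source, or a letter -/
noncomputable def step (e : ℕ) (D : Finset ℕ) : Finset ℕ :=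
  if e = 0 then D else if e = 1 then del 2 D else insert e (del e D)

/-- the configuration after the slots of the word `w`, read from the head -/
noncomputable def run : Finset ℕ → List ℕ → Finset ℕ
  | D, [] => D
  | D, (e :: w) => run (step e D) w

/-- the occupation probabilities -/
noncomputable def rh (P : ℕ → ℝ) (a : ℝ) (i : ℕ) : ℝ := P i / (P i + a)

/-- the function to be minimised, letters in `[b, M)` -/
noncomputable def FF (P : ℕ → ℝ) (M b : ℕ) (a : ℝ) (N : ℕ) : ℝ := a * N + ∑ i ∈ Ico b M, P i / (P i + a)

/-- minus the derivative of the sum in `FF` -/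
noncomputable def psi (P : ℕ → ℝ) (M : ℕ) (a : ℝ) : ℝ := ∑ i ∈ Ico 2 M, P i / (P i + a) ^ 2

/-- the longest strictly increasing subsequence of `x 0, …, x (n-1)` -/
noncomputable def LIS (x : ℕ → ℕ) (n : ℕ) : ℕ :=
  sSup {k : ℕ | ∃ s : Finset ℕ, s ⊆ range n ∧ StrictMonoOn x s ∧ s.card = k}

/-- the comparison function `f_t` of the problem file (letters in `ℕ`; the sum must converge) -/
noncomputable def fI (p : ℕ → ℝ) (t : ℝ) : ℝ :=
  sInf {y : ℝ | ∃ x : ℝ, 0 ≤ x ∧ Summable (fun i => t * p i / (t * p i + x)) ∧
    y = x + ∑' i, t * p i / (t * p i + x)}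

/-- the truncated law: the letter `i` becomes `i + 2` if `i + 2 < M`, otherwise it is ignored -/
noncomputable def tr (p : ℕ → ℝ) (M : ℕ) : ℕ → ℝ := fun e =>
  if e = 0 then 1 - ∑ i ∈ range (M - 2), p i else if e = 1 then 0 else p (e - 2)

/-- the truncated word of the first `n` samples -/
def word {Ω : Type} (X : ℕ → Ω → ℕ) (M n : ℕ) (ω : Ω) : List ℕ :=
  (List.range n).map (fun k => if X k ω + 2 < M then X k ω + 2 else 0)

end Pool.Agent.Q75.IS
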