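import Pool.Agent.Q75.IS.BND

/-!
Project IS (helper75): job EL.
-/

set_option autoImplicit false

open Finset MeasureTheory ProbabilityTheory Filter Topology

namespace Pool.Agent.Q75.IS

theorem word_eq_map {Ω : Type} (X : ℕ → Ω → ℕ) (M n : ℕ) (ω : Ω) :
    word X M n ω = ((List.range n).map (fun k => X k ω + 2)).map (fun x => if x < M then x else 0) := by
  unfold word
  rw [List.map_map]
  rfl

theorem lis_word_le (hLX : S_LISX) {Ω : Type} (X : ℕ → Ω → ℕ) (M n : ℕ) (ω : Ω) :
    lis 2 (word X M n ω) ≤ LIS (fun k => X k ω) n := by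
  rw [hLX.1, word_eq_map]
  exact hLX.2 _ _ (fun x => by by_cases h : x < M <;> simp [h])

theorem lis_word_eq (hLX : S_LISX) {Ω : Type} (X : ℕ → Ω → ℕ) (n : ℕ) (ω : Ω) :
    ∀ᶠ M in atTop, lis 2 (word X M n ω) = LIS (fun k => X k ω) n := by
  filter_upwards [eventually_ge_atTop (((Finset.range n).sup (fun k => X k ω)) + 3)] with M hM
  rw [hLX.1]
  congr 1
  unfold word
  refine List.map_congr_left fun k hk => ?_
  have hk' : k ∈ Finset.range n := by simpa using hk
  have : X k ω ≤ (Finset.range n).sup (fun k => X k ω) :=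
    Finset.le_sup (f := fun k => X k ω) hk'
  rw [if_pos (by omega)]

theorem measurable_LIS {Ω : Type} [MeasurableSpace Ω] {X : ℕ → Ω → ℕ} (hX : ∀ k, Measurable (X k))
    (hLX : S_LISX) (n : ℕ) : Measurable (fun ω => (LIS (fun k => X k ω) n : ℝ)) := by
  have h1 : (fun ω => (LIS (fun k => X k ω) n : ℝ)) =
      (fun v : Fin n → ℕ => (lis 2 (List.ofFn (fun i => v i + 2)) : ℝ)) ∘
        (fun ω (i : Fin n) => X i ω) := by
    funext ω
    simp only [Function.comp]
    rw [hLX.1]
    congr 2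
    rw [List.ofFn_eq_map]
    rw [← List.map_coe_finRange_eq_range]
    rw [List.map_map]
    rfl
  rw [h1]
  refine Measurable.comp (measurable_of_countable _) ?_
  exact measurable_pi_lambda _ fun i => hX i

theorem t_EL (hLAW : S_LAW) (hLX : S_LISX) (hVAR : S_VAR) : S_EL := by
  intro Ω _ μ _ X p hS n
  have hmeas := measurable_LIS hS.meas hLX n
  have hle : ∀ ω, (LIS (fun k => X k ω) n : ℝ) ≤ n := by
    intro ω
    have := lis_le_length 2 ((List.range n).map (fun k => X k ω + 2))
    rw [← hLX.1 (fun k => X k ω) n] at this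
    simp only [List.length_map, List.length_range] at this
    exact_mod_cast this
  have hint : Integrable (fun ω => (LIS (fun k => X k ω) n : ℝ)) μ := by
    refine Integrable.of_bound hmeas.aestronglyMeasurable n (Eventually.of_forall fun ω => ?_)
    rw [Real.norm_of_nonneg (Nat.cast_nonneg _)]
    exact hle ω
  have hptw : ∀ ω, Tendsto (fun M => (lis 2 (word X M n ω) : ℝ)) atTop
      (𝓝 (LIS (fun k => X k ω) n : ℝ)) := by
    intro ω
    refine tendsto_const_nhds.congr' ?_
    filter_upwards [lis_word_eq hLX X n ω] with M hM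
    rw [hM]
  have hbd : ∀ M ω, (lis 2 (word X M n ω) : ℝ) ≤ n := fun M ω =>
    le_trans (by exact_mod_cast lis_word_le hLX X M n ω) (hle ω)
  have hlim : Tendsto (fun M => ell (tr p M) M 2 n) atTop
      (𝓝 (∫ ω, (LIS (fun k => X k ω) n : ℝ) ∂μ)) := by
    have h1 : Tendsto (fun M : ℕ => ∫ ω, (lis 2 (word X (M + 2) n ω) : ℝ) ∂μ) atTop
        (𝓝 (∫ ω, (LIS (fun k => X k ω) n : ℝ) ∂μ)) := by
      refine tendsto_integral_of_dominated_convergence (fun _ => (n : ℝ)) ?_
        (integrable_const _) ?_ ?_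
      · intro M
        exact (hLAW Ω μ X p hS (M + 2) n (fun w => (lis 2 w : ℝ)) (by omega)).1.aestronglyMeasurable
      · intro M
        refine Eventually.of_forall fun ω => ?_
        rw [Real.norm_of_nonneg (Nat.cast_nonneg _)]
        exact hbd _ ω
      · refine Eventually.of_forall fun ω => ?_
        exact (hptw ω).comp (tendsto_add_atTop_nat 2)
    have h2 : (fun M : ℕ => ∫ ω, (lis 2 (word X (M + 2) n ω) : ℝ) ∂μ)
        = fun M => ell (tr p (M + 2)) (M + 2) 2 n := by
      funext M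
      exact (hLAW Ω μ X p hS (M + 2) n (fun w => (lis 2 w : ℝ)) (by omega)).2
    rw [h2] at h1
    exact (tendsto_add_atTop_iff_nat (f := fun M => ell (tr p M) M 2 n) 2).mp h1
  refine ⟨hmeas, hlim, ?_⟩
  set e : ℝ := ∫ ω, (LIS (fun k => X k ω) n : ℝ) ∂μ with he
  -- variance
  have h3 : Tendsto (fun M : ℕ => ∫ ω, ((lis 2 (word X (M + 2) n ω) : ℝ) -
      ell (tr p (M + 2)) (M + 2) 2 n) ^ 2 ∂μ) atTop
      (𝓝 (∫ ω, ((LIS (fun k => X k ω) n : ℝ) - e) ^ 2 ∂μ)) := by
    have hell : ∀ M : ℕ, |ell (tr p (M + 2)) (M + 2) 2 n| ≤ n := by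
      intro M
      have h4 := (hLAW Ω μ X p hS (M + 2) n (fun w => (lis 2 w : ℝ)) (by omega)).2
      unfold ell
      rw [← h4]
      have h5 : ‖∫ ω, (lis 2 (word X (M + 2) n ω) : ℝ) ∂μ‖ ≤ n * μ.real Set.univ :=
        norm_integral_le_of_norm_le_const (Eventually.of_forall fun ω => by
          rw [Real.norm_of_nonneg (Nat.cast_nonneg _)]; exact hbd _ ω)
      rw [Real.norm_eq_abs] at h5
      simpa using h5
    refine tendsto_integral_of_dominated_convergence (fun _ => ((2 * n : ℝ)) ^ 2) ?_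
      (integrable_const _) ?_ ?_
    · intro M
      have h6 := (hLAW Ω μ X p hS (M + 2) n (fun w => (lis 2 w : ℝ))
        (by omega)).1.aestronglyMeasurable
      exact (h6.sub aestronglyMeasurable_const).pow 2
    · intro M
      refine Eventually.of_forall fun ω => ?_
      rw [Real.norm_of_nonneg (sq_nonneg _)]
      have h7 := hbd (M + 2) ω
      have h8 := abs_le.mp (hell M)
      have h9 : (0 : ℝ) ≤ lis 2 (word X (M + 2) n ω) := Nat.cast_nonneg _
      have h10 : (0 : ℝ) ≤ n := Nat.cast_nonneg _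
      apply sq_le_sq'
      · linarith [h8.2]
      · linarith [h8.1]
    · refine Eventually.of_forall fun ω => ?_
      exact (((hptw ω).comp (tendsto_add_atTop_nat 2)).sub
        (hlim.comp (tendsto_add_atTop_nat 2))).pow 2
  have h11 : Tendsto (fun M : ℕ => ell (tr p (M + 2)) (M + 2) 2 n) atTop (𝓝 e) :=
    hlim.comp (tendsto_add_atTop_nat 2)
  refine le_of_tendsto_of_tendsto h3 h11 (Eventually.of_forall fun M => ?_)
  have h12 := (hLAW Ω μ X p hS (M + 2) n (fun w => ((lis 2 w : ℝ) -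
    ell (tr p (M + 2)) (M + 2) 2 n) ^ 2) (by omega)).2
  simp only at h12 ⊢
  rw [h12]
  exact hVAR _ _ (tr_law hS.nonneg hS.sum (by omega)) 2 n

end Pool.Agent.Q75.IS
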