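import Pool.Agent.Q75.IS.LBM

/-!
Project IS (helper75): job EXIT.
-/

set_option autoImplicit false

open Finset

namespace Pool.Agent.Q75.IS

theorem grid_find (f : ℕ → ℕ) (K s : ℕ) (hK : 1 ≤ K) (h0 : f 0 ≤ s) (h1 : s ≤ f K) :
    ∃ k < K, f k ≤ s ∧ s ≤ f (k + 1) := by
  classical
  by_contra hc
  push Not at hc
  have h : ∀ k, k ≤ K → f k ≤ s := by
    intro k
    induction k with
    | zero => intro _; exact h0
    | succ k ih =>
      intro hk
      have h2 := ih (by omega)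
      have h3 := hc k (by omega) h2
      omega
  have h4 := h (K - 1) (by omega)
  have h5 := hc (K - 1) (by omega) h4
  rw [Nat.sub_add_cancel hK] at h5
  omega

theorem t_EXIT (hVAR : S_VAR) (hEBM : S_EBM) (hSRC : S_SRC) (hSTA : S_STA) (hVDET : S_VDET)
    (hINV : S_INV) (hUP : S_UP) (hMAXE : S_MAXE) (hGRID : S_GRID) : S_EXIT := by
  intro P M N K a hP ha hsum hK
  have hM := hP.two
  set Q := mkLaw P M 2 a with hQ
  have hQl : Law Q M := mkLaw_law le_rfl hM hP.nonneg ha hsum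
  have hQ1 : Q 1 = a := mkLaw_one
  have hQe : ∀ i, 2 ≤ i → i < M → Q i = P i := fun i h1 h2 => mkLaw_eq le_rfl h1 h2
  set ρ : ℕ → ℝ := rh Q (Q 1) with hρ
  have hρ0 : ∀ j, 0 ≤ ρ j := fun j =>
    div_nonneg (hQl.nonneg j) (add_nonneg (hQl.nonneg j) (hQl.nonneg 1))
  have hρ1 : ∀ j, ρ j ≤ 1 := fun j =>
    div_le_one_of_le₀ (by have := hQl.nonneg 1; linarith) (add_nonneg (hQl.nonneg j) (hQl.nonneg 1))
  have hρe : ∀ i, 2 ≤ i → i < M → ρ i = rh P a i := by
    intro i h1 h2
    rw [hρ]; unfold rh; rw [hQ1, hQe i h1 h2]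
  have hρs : ∀ i, i ≤ M → ∑ j ∈ Ico 2 i, ρ j = ∑ j ∈ Ico 2 i, rh P a j := by
    intro i hi
    refine Finset.sum_congr rfl fun j hj => ?_
    rw [Finset.mem_Ico] at hj
    exact hρe j hj.1 (by omega)
  set F := FF P M 2 a N with hF
  have hFeq : F = a * N + ∑ j ∈ Ico 2 M, ρ j := by
    rw [hρs M le_rfl, hF]; rfl
  have hrho0 : 0 ≤ ∑ j ∈ Ico 2 M, ρ j := Finset.sum_nonneg fun j _ => hρ0 j
  have haN : 0 ≤ a * N := by positivity
  have hF0 : 0 ≤ F := by rw [hFeq]; linarith
  have ha1 : a ≤ 1 := by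
    have : 0 ≤ ∑ i ∈ Ico 2 M, P i := Finset.sum_nonneg fun i _ => hP.nonneg i
    linarith
  have hell : ∀ b n, 2 ≤ b → b ≤ M → ell P M b n = ell Q M b n := by
    intro b n hb hbM
    exact hINV P Q M b hP hQl hbM (fun i h1 h2 => (hQe i (by omega) h2).symm) n
  have hQsum : ∑ i ∈ Ico 2 M, Q i = ∑ i ∈ Ico 2 M, P i :=
    Finset.sum_congr rfl fun i hi => by rw [Finset.mem_Ico] at hi; exact hQe i hi.1 hi.2
  -- upper bounds of ell by F
  have hellF : ∀ n, n ≤ N → ell Q M 2 n ≤ F := by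
    intro n hn
    have h1 := hUP Q M 2 n a hQl le_rfl hM ha (by rw [hQsum]; exact hsum)
    refine h1.trans ?_
    unfold FF
    have h2 : ∑ i ∈ Ico 2 M, Q i / (Q i + a) = ∑ j ∈ Ico 2 M, ρ j := by
      refine Finset.sum_congr rfl fun i _ => ?_
      rw [hρ]; unfold rh; rw [hQ1]
    rw [h2, hFeq]
    have : a * (n : ℝ) ≤ a * N := mul_le_mul_of_nonneg_left (by exact_mod_cast hn) ha
    linarith
  -- the grids
  obtain ⟨ig, hi0, hiK, himono, hib, hgrid⟩ := hGRID ρ M K F hρ0 hρ1 hM hK (by rw [hFeq]; linarith)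
  set sg : ℕ → ℕ := fun k => k * N / K with hsg
  have hsg0 : sg 0 = 0 := by simp [hsg]
  have hsgK : sg K = N := by
    simp only [hsg]; rw [Nat.mul_div_cancel_left _ (by omega)]
  have hsgN : ∀ k, k ≤ K → sg k ≤ N := by
    intro k hk
    simp only [hsg]
    calc k * N / K ≤ K * N / K := Nat.div_le_div_right (Nat.mul_le_mul_right _ hk)
      _ = N := Nat.mul_div_cancel_left _ (by omega)
  have hK0 : (0 : ℝ) < K := by exact_mod_cast hK
  have hsgstep : ∀ k, (sg (k + 1) : ℝ) ≤ sg k + N / K + 1 := by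
    intro k
    simp only [hsg]
    have h1 : (((k + 1) * N / K : ℕ) : ℝ) ≤ ((k + 1) * N : ℕ) / (K : ℝ) := Nat.cast_div_le
    have h2 : ((k * N : ℕ) : ℝ) / (K : ℝ) < ((k * N / K : ℕ) : ℝ) + 1 := by
      rw [div_lt_iff₀ hK0]
      have := Nat.lt_div_mul_add (a := k * N) (b := K) (by omega)
      have h3 : (k * N : ℕ) < k * N / K * K + K := this
      have h4 : ((k * N : ℕ) : ℝ) < ((k * N / K * K + K : ℕ) : ℝ) := by exact_mod_cast h3
      push_cast at h4 ⊢
      linarith
    push_cast at h1 h2 ⊢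
    have h5 : ((k : ℝ) + 1) * N / K = k * N / K + N / K := by ring
    rw [h5] at h1
    linarith
  -- the functions
  set Z : ℕ → Finset ℕ → List ℕ → ℝ := fun t D w =>
    if t % 2 = 0 then ((w.take (sg (t / 2 + 1))).count 1 : ℝ) + (lis 2 (w.drop (sg (t / 2))) : ℝ)
    else ((D.filter (fun j => j < ig (t / 2 + 1))).card : ℝ) + (lis (ig (t / 2)) w : ℝ) with hZ
  set c : ℕ → ℝ := fun t =>
    if t % 2 = 0 then a * sg (t / 2 + 1) + ell Q M 2 (N - sg (t / 2))
    else ∑ j ∈ Ico 2 (ig (t / 2 + 1)), ρ j + ell Q M (ig (t / 2)) N with hc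
  have sq2 : ∀ x y α β : ℝ, (x + y - (α + β)) ^ 2 ≤ 2 * (x - α) ^ 2 + 2 * (y - β) ^ 2 := by
    intro x y α β
    nlinarith [sq_nonneg ((x - α) - (y - β))]
  have hvar : ∀ t ∈ range (2 * K),
      Eb ρ M (fun D => Ex Q M N (fun w => (Z t D w - c t) ^ 2)) ≤ 4 * F := by
    intro t ht
    rw [Finset.mem_range] at ht
    have hk : t / 2 < K := by omega
    by_cases hpar : t % 2 = 0
    · -- time type
      have hs1 : sg (t / 2 + 1) ≤ N := hsgN _ (by omega)
      have hs0 : sg (t / 2) ≤ N := hsgN _ (by omega)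
      obtain ⟨hA1, _, hA3, hA4⟩ := hSRC Q M hQl (sg (t / 2 + 1)) N hs1
      obtain ⟨_, hB2, _, _⟩ := hSRC Q M hQl (sg (t / 2)) N hs0
      have h1 : Ex Q M N (fun w => (Z t ∅ w - c t) ^ 2) ≤ 4 * F := by
        have e1 : Ex Q M N (fun w => (Z t ∅ w - c t) ^ 2) ≤
            Ex Q M N (fun w => 2 * ((((w.take (sg (t / 2 + 1))).count 1 : ℝ)) -
              Q 1 * sg (t / 2 + 1)) ^ 2 + 2 * ((lis 2 (w.drop (sg (t / 2))) : ℝ)
              - ell Q M 2 (N - sg (t / 2))) ^ 2) := by
          refine Ex_mono hQl.nonneg N fun w _ _ => ?_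
          simp only [hZ, hc, if_pos hpar, hQ1]
          exact sq2 _ _ _ _
        refine e1.trans ?_
        rw [Ex_add, Ex_mul, Ex_mul]
        have e2 := hA1 (fun u => ((u.count 1 : ℝ) - Q 1 * sg (t / 2 + 1)) ^ 2)
        have e3 := hB2 (fun u => ((lis 2 u : ℝ) - ell Q M 2 (N - sg (t / 2))) ^ 2)
        rw [e2, e3]
        have e4 := hVAR Q M hQl 2 (N - sg (t / 2))
        have e5 := hellF (N - sg (t / 2)) (Nat.sub_le _ _)
        have e6 : Q 1 * (sg (t / 2 + 1) : ℝ) ≤ F := by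
          rw [hQ1, hFeq]
          have : a * (sg (t / 2 + 1) : ℝ) ≤ a * N :=
            mul_le_mul_of_nonneg_left (by exact_mod_cast hs1) ha
          linarith
        linarith
      have h2 : (fun D : Finset ℕ => Ex Q M N (fun w => (Z t D w - c t) ^ 2))
          = fun _ => Ex Q M N (fun w => (Z t ∅ w - c t) ^ 2) := by
        funext D
        simp only [hZ, if_pos hpar]
      rw [h2, Eb_const]
      exact h1
    · have hi1 : ig (t / 2 + 1) ≤ M := (hib _ (by omega)).2
      have hi2 : 2 ≤ ig (t / 2) := (hib _ (by omega)).1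
      have hi3 : ig (t / 2) ≤ M := (hib _ (by omega)).2
      obtain ⟨_, hE2⟩ := hEBM ρ M (ig (t / 2 + 1)) hρ0 hρ1 hM hi1
      have e1 : Eb ρ M (fun D => Ex Q M N (fun w => (Z t D w - c t) ^ 2)) ≤
          Eb ρ M (fun D => 2 * (((D.filter (fun j => j < ig (t / 2 + 1))).card : ℝ)
            - ∑ j ∈ Ico 2 (ig (t / 2 + 1)), ρ j) ^ 2 +
            2 * Ex Q M N (fun w => ((lis (ig (t / 2)) w : ℝ) - ell Q M (ig (t / 2)) N) ^ 2)) := by
        refine Eb_mono hρ0 hρ1 fun D _ => ?_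
        have e2 : Ex Q M N (fun w => (Z t D w - c t) ^ 2) ≤
            Ex Q M N (fun w => 2 * (((D.filter (fun j => j < ig (t / 2 + 1))).card : ℝ)
            - ∑ j ∈ Ico 2 (ig (t / 2 + 1)), ρ j) ^ 2 +
            2 * ((lis (ig (t / 2)) w : ℝ) - ell Q M (ig (t / 2)) N) ^ 2) := by
          refine Ex_mono hQl.nonneg N fun w _ _ => ?_
          simp only [hZ, hc, if_neg hpar]
          exact sq2 _ _ _ _
        rw [Ex_add, Ex_const hQl, Ex_mul] at e2
        exact e2
      refine e1.trans ?_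
      rw [Eb_add, Eb_mul, Eb_const]
      have e4 := hVAR Q M hQl (ig (t / 2)) N
      have e5 : ell Q M (ig (t / 2)) N ≤ F := (ell_anti hQl.nonneg hi2 N).trans (hellF N le_rfl)
      have e6 : ∑ j ∈ Ico 2 (ig (t / 2 + 1)), ρ j ≤ F := by
        have : ∑ j ∈ Ico 2 (ig (t / 2 + 1)), ρ j ≤ ∑ j ∈ Ico 2 M, ρ j := by
          refine Finset.sum_le_sum_of_subset_of_nonneg ?_ (fun j _ _ => hρ0 j)
          intro x; simp only [Finset.mem_Ico]; omega
        rw [hFeq]; linarith
      linarith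
  -- domination
  have hdom : ∀ D ⊆ Ico 2 M, ∀ w : List ℕ, w.length = N → (∀ e ∈ w, e < M) →
      ∃ t ∈ range (2 * K), ((w.count 1 : ℝ) + ((run D w).card : ℝ)) ≤ Z t D w := by
    intro D hD w hw hwM
    have hD2 : ∀ j ∈ D, 2 ≤ j := fun j hj => (Finset.mem_Ico.mp (hD hj)).1
    rcases hVDET w D hD2 with ⟨s, hs, hle⟩ | ⟨i, hi, hle⟩
    · rw [hw] at hs
      obtain ⟨k, hk, h1, h2⟩ := grid_find sg K s hK (by rw [hsg0]; omega) (by rw [hsgK]; exact hs)
      refine ⟨2 * k, Finset.mem_range.mpr (by omega), ?_⟩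
      have hp : 2 * k % 2 = 0 := by omega
      have hq : 2 * k / 2 = k := by omega
      simp only [hZ, if_pos hp, hq]
      have h3 : (w.take s).count 1 ≤ (w.take (sg (k + 1))).count 1 :=
        List.Sublist.count_le 1 (List.take_sublist_take_left h2)
      have h4 : lis 2 (w.drop s) ≤ lis 2 (w.drop (sg k)) :=
        lis_sublist (List.drop_sublist_drop_left w h1) 2
      have h5 : w.count 1 + (run D w).card ≤ (w.take (sg (k + 1))).count 1 + lis 2 (w.drop (sg k)) := by
        omega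
      exact_mod_cast h5
    · -- letter exit; reduce to i ≤ M
      obtain ⟨i', hi', hi'M, hle'⟩ : ∃ i', 2 ≤ i' ∧ i' ≤ M ∧
          w.count 1 + (run D w).card ≤ (D.filter (fun j => j < i')).card + lis i' w := by
        by_cases hiM : i ≤ M
        · exact ⟨i, hi, hiM, hle⟩
        · push Not at hiM
          refine ⟨M, hM, le_rfl, hle.trans ?_⟩
          refine Nat.add_le_add (Finset.card_le_card ?_) (lis_anti hiM.le w)
          intro j hj
          have := Finset.mem_filter.mp hj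
          exact Finset.mem_filter.mpr ⟨this.1, (Finset.mem_Ico.mp (hD this.1)).2⟩
      obtain ⟨k, hk, h1, h2⟩ := grid_find ig K i' hK (by rw [hi0]; exact hi') (by rw [hiK]; exact hi'M)
      refine ⟨2 * k + 1, Finset.mem_range.mpr (by omega), ?_⟩
      have hp : ¬ (2 * k + 1) % 2 = 0 := by omega
      have hq : (2 * k + 1) / 2 = k := by omega
      simp only [hZ, if_neg hp, hq]
      have h3 : (D.filter (fun j => j < i')).card ≤ (D.filter (fun j => j < ig (k + 1))).card := by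
        refine Finset.card_le_card ?_
        intro j hj
        have := Finset.mem_filter.mp hj
        exact Finset.mem_filter.mpr ⟨this.1, lt_of_lt_of_le this.2 h2⟩
      have h4 : lis i' w ≤ lis (ig k) w := lis_anti h1 w
      have h5 : w.count 1 + (run D w).card ≤ (D.filter (fun j => j < ig (k + 1))).card + lis (ig k) w := by
        omega
      exact_mod_cast h5
  -- the mean of W
  have hmean : Eb ρ M (fun D => Ex Q M N (fun w => (w.count 1 : ℝ) + ((run D w).card : ℝ))) = F := by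
    have e1 : (fun D : Finset ℕ => Ex Q M N (fun w => (w.count 1 : ℝ) + ((run D w).card : ℝ)))
        = fun D => Ex Q M N (fun w => (w.count 1 : ℝ)) + Ex Q M N (fun w => ((run D w).card : ℝ)) := by
      funext D; rw [Ex_add]
    rw [e1, Eb_add, Eb_const]
    have e2 := Eb_run hSTA hQl N (fun D => (D.card : ℝ))
    rw [← hρ] at e2
    rw [e2, (hSRC Q M hQl N N le_rfl).2.2.1, hQ1, hFeq]
    congr 1
    have e3 := (hEBM ρ M M hρ0 hρ1 hM le_rfl).1
    rw [← e3]
    refine Eb_congr fun D hD => ?_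
    have : D.filter (fun j => j < M) = D := by
      refine Finset.filter_true_of_mem fun j hj => (Finset.mem_Ico.mp (hD hj)).2
    rw [this]
  -- a grid point with large mean
  have hex : ∃ t ∈ range (2 * K), F - Real.sqrt (8 * K * F) ≤ c t := by
    obtain ⟨t, ht, hmax⟩ := Finset.exists_max_image (range (2 * K)) c
      ⟨0, Finset.mem_range.mpr (by omega)⟩
    refine ⟨t, ht, ?_⟩
    have h1 := hMAXE ρ Q M N (range (2 * K)) Z c (4 * F) (c t)
      (fun D w => (w.count 1 : ℝ) + ((run D w).card : ℝ)) hQl hρ0 hρ1 (by positivity) hvar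
      (fun t' ht' => hmax t' ht') hdom
    rw [hmean] at h1
    have h2 : ((range (2 * K)).card : ℝ) * (4 * F) = 8 * K * F := by
      rw [Finset.card_range]; push_cast; ring
    rw [h2] at h1
    linarith
  obtain ⟨t, ht, hct⟩ := hex
  rw [Finset.mem_range] at ht
  have hk : t / 2 < K := by omega
  by_cases hpar : t % 2 = 0
  · left
    refine ⟨sg (t / 2), hsgN _ (by omega), ?_⟩
    simp only [hc, if_pos hpar] at hct
    rw [hell 2 _ le_rfl hM]
    have h1 := hsgstep (t / 2)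
    have h2 : a * (sg (t / 2 + 1) : ℝ) ≤ a * (sg (t / 2) + N / K + 1) :=
      mul_le_mul_of_nonneg_left h1 ha
    have h3 : a * ((N : ℝ) / K) ≤ F / K := by
      rw [← mul_div_assoc]
      apply div_le_div_of_nonneg_right _ hK0.le
      rw [hFeq]; linarith
    have h4 : a * ((sg (t / 2) : ℝ) + N / K + 1) = a * sg (t / 2) + a * (N / K) + a := by ring
    rw [h4] at h2
    linarith
  · right
    refine ⟨ig (t / 2), (hib _ (by omega)).1, (hib _ (by omega)).2, ?_⟩
    simp only [hc, if_neg hpar] at hct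
    rw [hell _ _ (hib _ (by omega)).1 (hib _ (by omega)).2, ← hρs _ (hib _ (by omega)).2]
    have h1 := hgrid (t / 2) hk
    linarith

end Pool.Agent.Q75.IS
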