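import Pool.Agent.Q75.IS.Stm2

/-!
Project IS (helper75): jobs LBM and BND.
-/

set_option autoImplicit false

open Finset MeasureTheory ProbabilityTheory Filter Topology

namespace Pool.Agent.Q75.IS

/-- a law with prescribed weights on `[b, M)`, weight `a` at `1`, the rest at `0` -/
noncomputable def mkLaw (q : ℕ → ℝ) (M b : ℕ) (a : ℝ) : ℕ → ℝ := fun e =>
  if e = 0 then 1 - a - ∑ i ∈ Ico b M, q i else if e = 1 then a
  else if b ≤ e ∧ e < M then q e else 0

theorem mkLaw_law {q : ℕ → ℝ} {M b : ℕ} {a : ℝ} (hb : 2 ≤ b) (hM : 2 ≤ M) (hq : ∀ i, 0 ≤ q i)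
    (ha : 0 ≤ a) (h : a + ∑ i ∈ Ico b M, q i ≤ 1) : Law (mkLaw q M b a) M := by
  refine ⟨?_, ?_, hM⟩
  · intro e
    unfold mkLaw
    split_ifs
    · linarith
    · exact ha
    · exact hq e
    · exact le_rfl
  · have h1 : range M = insert 0 (insert 1 (Ico 2 M)) := by
      ext x; simp only [Finset.mem_range, Finset.mem_insert, Finset.mem_Ico]; omega
    rw [h1, Finset.sum_insert (by simp), Finset.sum_insert (by simp)]
    have h2 : ∑ e ∈ Ico 2 M, mkLaw q M b a e = ∑ i ∈ Ico b M, q i := by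
      rw [← Finset.sum_subset (s₁ := Ico b M) (s₂ := Ico 2 M)]
      · refine Finset.sum_congr rfl fun e he => ?_
        rw [Finset.mem_Ico] at he
        unfold mkLaw
        rw [if_neg (by omega), if_neg (by omega), if_pos ⟨he.1, he.2⟩]
      · intro x; simp only [Finset.mem_Ico]; omega
      · intro x hx hx2
        rw [Finset.mem_Ico] at hx hx2
        unfold mkLaw
        rw [if_neg (by omega), if_neg (by omega), if_neg (by omega)]
    rw [h2]
    simp only [mkLaw, if_true, one_ne_zero, if_false]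
    ring

theorem mkLaw_eq {q : ℕ → ℝ} {M b i : ℕ} {a : ℝ} (hb : 2 ≤ b) (h1 : b ≤ i) (h2 : i < M) :
    mkLaw q M b a i = q i := by
  unfold mkLaw
  rw [if_neg (by omega), if_neg (by omega), if_pos ⟨h1, h2⟩]

theorem mkLaw_one {q : ℕ → ℝ} {M b : ℕ} {a : ℝ} : mkLaw q M b a 1 = a := by
  simp [mkLaw]

theorem FF_le_of {P : ℕ → ℝ} {M : ℕ} {N : ℕ} (hP : Law P M) (hN : 1 ≤ N) :
    FF P M 2 (1 / Real.sqrt N) N ≤ 2 * Real.sqrt N := by
  unfold FF
  have hN0 : (0 : ℝ) < N := by exact_mod_cast hN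
  have hs : 0 < Real.sqrt N := Real.sqrt_pos.mpr hN0
  have hss : Real.sqrt N * Real.sqrt N = N := Real.mul_self_sqrt hN0.le
  have h1 : 1 / Real.sqrt N * (N : ℝ) = Real.sqrt N := by
    field_simp; nlinarith
  have h2 : ∑ i ∈ Ico 2 M, P i / (P i + 1 / Real.sqrt N) ≤ ∑ i ∈ Ico 2 M, P i * Real.sqrt N := by
    refine Finset.sum_le_sum fun i _ => ?_
    have hp := hP.nonneg i
    have h3 : 0 < P i + 1 / Real.sqrt N := by positivity
    rw [div_le_iff₀ h3]
    have : P i * Real.sqrt N * (P i + 1 / Real.sqrt N) = P i * P i * Real.sqrt N + P i := by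
      field_simp
    rw [this]
    have : 0 ≤ P i * P i * Real.sqrt N := by positivity
    linarith
  rw [← Finset.sum_mul] at h2
  have h4 : ∑ i ∈ Ico 2 M, P i ≤ 1 := by
    rw [← hP.sum]
    refine Finset.sum_le_sum_of_subset_of_nonneg ?_ (fun i _ _ => hP.nonneg i)
    intro x; simp only [Finset.mem_Ico, Finset.mem_range]; omega
  rw [h1]
  nlinarith

/-- lower bound for laws with enough mass at `0`, `1` -/
theorem LBQ (hA : S_AST) (hCA : S_CA) (hCB : S_CB) : ∀ ε : ℝ, 0 < ε → ∃ C : ℝ, ∀ (P : ℕ → ℝ) (M N : ℕ),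
    Law P M → 1 ≤ N → 2 / Real.sqrt N + ∑ i ∈ Ico 2 M, P i ≤ 1 →
    ∃ a : ℝ, 0 ≤ a ∧ (C ≤ FF P M 2 a N → (1 - ε) * FF P M 2 a N ≤ ell P M 2 N) := by
  intro ε hε
  obtain ⟨c, hc, C1, h1⟩ := hCA ε hε
  obtain ⟨C2, h2⟩ := hCB ε hε c hc
  refine ⟨max C1 C2, fun P M N hP hN hm => ?_⟩
  have hN0 : (0 : ℝ) < N := by exact_mod_cast hN
  have hs : 0 < Real.sqrt N := Real.sqrt_pos.mpr hN0
  have hsum : ∑ i ∈ Ico 2 M, P i ≤ 1 := by
    have : 0 < 2 / Real.sqrt N := by positivity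
    linarith
  obtain ⟨a, ha0, ha1, hpsi, halt⟩ := hA P M N hP.nonneg hsum hN
  refine ⟨a, ha0, fun hC => ?_⟩
  by_cases hcase : a * N ≤ c * FF P M 2 a N
  · exact h1 P M N a hP hN ha0 hpsi hcase ((le_max_left _ _).trans hC)
  · push Not at hcase
    have hF0 : 0 ≤ FF P M 2 a N := by
      unfold FF
      have : 0 ≤ ∑ i ∈ Ico 2 M, P i / (P i + a) :=
        Finset.sum_nonneg fun i _ => div_nonneg (hP.nonneg i) (add_nonneg (hP.nonneg i) ha0)
      positivity
    have hapos : 0 < a := by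
      rcases lt_or_eq_of_le ha0 with h | h
      · exact h
      · rw [← h] at hcase
        have : 0 ≤ c * FF P M 2 a N := by positivity
        rw [← h] at this
        simp at hcase
        linarith
    have hpsiN : psi P M a = N := by
      rcases halt with h | h
      · exact absurd h hapos.ne'
      · exact h
    refine h2 P M N a hP hN hapos ?_ hpsiN hcase.le ((le_max_right _ _).trans hC)
    have : 2 * a ≤ 2 / Real.sqrt N := by
      calc 2 * a ≤ 2 * (1 / Real.sqrt N) := by linarith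
        _ = 2 / Real.sqrt N := by ring
    linarith

theorem t_LBM (hA : S_AST) (hCA : S_CA) (hCB : S_CB) (hT : S_THIN) : S_LBM := by
  intro ε hε
  by_cases hε1 : 1 ≤ ε
  · refine ⟨0, fun P M N hP hN _ => ⟨0, le_rfl, ?_⟩⟩
    have h1 : 0 ≤ FF P M 2 0 N := by
      unfold FF
      have : 0 ≤ ∑ i ∈ Ico 2 M, P i / (P i + 0) :=
        Finset.sum_nonneg fun i _ => div_nonneg (hP.nonneg i) (by simpa using hP.nonneg i)
      simpa using this
    have h2 : 0 ≤ ell P M 2 N := ell_nonneg hP.nonneg 2 N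
    nlinarith
  push Not at hε1
  obtain ⟨C', hC'⟩ := LBQ hA hCA hCB (ε / 2) (by positivity)
  -- N large: θ ≥ 1 - ε/2, θ ≥ 1/2
  refine ⟨max (2 * C') (16 / ε), fun P M N hP hN hF => ?_⟩
  have hN0 : (0 : ℝ) < N := by exact_mod_cast hN
  have hs : 0 < Real.sqrt N := Real.sqrt_pos.mpr hN0
  have hbig : 16 / ε ≤ 2 * Real.sqrt N :=
    ((le_max_right _ _).trans (hF _ (by positivity))).trans (FF_le_of hP hN)
  have hsq : 8 / ε ≤ Real.sqrt N := by
    have : 16 / ε = 2 * (8 / ε) := by ring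
    linarith
  set θ : ℝ := 1 - 2 / Real.sqrt N with hθ
  have hθε : 2 / Real.sqrt N ≤ ε / 4 := by
    rw [div_le_iff₀ hs]
    have : 8 / ε * (ε / 4) = 2 := by field_simp; norm_num
    nlinarith
  have hθ1 : 1 - ε / 4 ≤ θ := by rw [hθ]; linarith
  have hθ12 : (1 : ℝ) / 2 ≤ θ := by linarith
  have hθle : θ ≤ 1 := by
    rw [hθ]
    have : 0 < 2 / Real.sqrt N := by positivity
    linarith
  have hθ0 : 0 ≤ θ := by linarith
  have h4 : ∑ i ∈ Ico 2 M, P i ≤ 1 := by
    rw [← hP.sum]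
    refine Finset.sum_le_sum_of_subset_of_nonneg ?_ (fun i _ _ => hP.nonneg i)
    intro x; simp only [Finset.mem_Ico, Finset.mem_range]; omega
  have h40 : 0 ≤ ∑ i ∈ Ico 2 M, P i := Finset.sum_nonneg fun i _ => hP.nonneg i
  set q : ℕ → ℝ := fun i => θ * P i with hq
  have hq0 : ∀ i, 0 ≤ q i := fun i => mul_nonneg hθ0 (hP.nonneg i)
  have hqs : ∑ i ∈ Ico 2 M, q i = θ * ∑ i ∈ Ico 2 M, P i := by
    rw [hq, Finset.mul_sum]
  have hqs1 : ∑ i ∈ Ico 2 M, q i ≤ θ := by
    rw [hqs]; nlinarith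
  set Q := mkLaw q M 2 0 with hQ
  have hQlaw : Law Q M := mkLaw_law le_rfl hP.two hq0 le_rfl (by linarith)
  have hQeq : ∀ i, 2 ≤ i → i < M → Q i = θ * P i := fun i h1 h2 => mkLaw_eq le_rfl h1 h2
  have hQsum : ∑ i ∈ Ico 2 M, Q i = ∑ i ∈ Ico 2 M, q i :=
    Finset.sum_congr rfl fun i hi => by
      rw [Finset.mem_Ico] at hi; exact hQeq i hi.1 hi.2
  obtain ⟨a, ha, himp⟩ := hC' Q M N hQlaw hN (by rw [hQsum]; linarith)
  have hFF : θ * FF P M 2 a N ≤ FF Q M 2 a N := by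
    unfold FF
    rw [mul_add, Finset.mul_sum]
    have e1 : θ * (a * N) ≤ a * N := by
      have : 0 ≤ a * N := by positivity
      nlinarith
    have e2 : ∑ i ∈ Ico 2 M, θ * (P i / (P i + a)) ≤ ∑ i ∈ Ico 2 M, Q i / (Q i + a) := by
      refine Finset.sum_le_sum fun i hi => ?_
      rw [Finset.mem_Ico] at hi
      rw [hQeq i hi.1 hi.2]
      have hp := hP.nonneg i
      rcases eq_or_lt_of_le hp with h | h
      · rw [← h]; simp
      · have k1 : 0 < P i + a := by linarith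
        have k2 : 0 < θ * P i + a := by
          have : 0 < θ * P i := mul_pos (by linarith) h
          linarith
        rw [← mul_div_assoc]
        apply div_le_div_of_nonneg_left (mul_nonneg hθ0 hp) k2
        nlinarith
    linarith
  have hFP : max (2 * C') (16 / ε) ≤ FF P M 2 a N := hF a ha
  have hFP0 : 0 < FF P M 2 a N := lt_of_lt_of_le (by positivity) ((le_max_right _ _).trans hFP)
  have hCF : C' ≤ FF Q M 2 a N := by
    have h5 : 2 * C' ≤ FF P M 2 a N := (le_max_left _ _).trans hFP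
    nlinarith
  refine ⟨a, ha, ?_⟩
  have h6 := himp hCF
  have h7 := (hT P Q M N θ hP hQlaw hθ0 hθle hQeq).2
  have h8 : (1 - ε / 2) * (θ * FF P M 2 a N) ≤ (1 - ε / 2) * FF Q M 2 a N :=
    mul_le_mul_of_nonneg_left hFF (by linarith)
  have h9 : (1 - ε) * FF P M 2 a N ≤ (1 - ε / 2) * (θ * FF P M 2 a N) := by
    have : (1 - ε) ≤ (1 - ε / 2) * θ := by nlinarith
    nlinarith
  linarith

end Pool.Agent.Q75.IS
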