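import Pool.Agent.Q75.IS.Stm2

/-!
Project IS (helper75): the final assembly of MP_6ef346_pr.
-/

set_option autoImplicit false

open Finset MeasureTheory ProbabilityTheory Filter Topology

namespace Pool.Agent.Q75.IS

theorem lis_mono_n (h : S_LISX) (x : ℕ → ℕ) (n : ℕ) : LIS x n ≤ LIS x (n + 1) := by
  rw [h.1, h.1, List.range_succ, List.map_append]
  exact lis_sublist (List.sublist_append_left _ _) 2

theorem main (hLX : S_LISX) (hEL : S_EL) (hB : S_BND) (hF : S_FI) (hAS : S_AS) (hFS : S_FS)
    (Ω : Type) [MeasurableSpace Ω] (μ : Measure Ω) [IsProbabilityMeasure μ]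
    (X : ℕ → Ω → ℕ) (p : ℕ → ℝ) (hS : Samp μ X p) :
    ∀ᵐ ω ∂μ, Tendsto (fun n : ℕ => (LIS (fun k => X k ω) n : ℝ) / fI p n) atTop (𝓝 1) := by
  classical
  obtain ⟨hF1, hF2, hF3⟩ := hF p hS.nonneg hS.sum
  by_cases hfin : {i | 0 < p i}.Finite
  · -- finite support
    obtain ⟨s, hs⟩ : ∃ s : Finset ℕ, {i | 0 < p i} = s := ⟨hfin.toFinset, by simp⟩
    have h1 := hF3 s hs
    have hne : s.Nonempty := by
      by_contra hc
      rw [Finset.not_nonempty_iff_eq_empty] at hc
      rw [hc] at hs
      have h0 : ∀ i, p i = 0 := by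
        intro i
        by_contra hi
        have : i ∈ {i | 0 < p i} := lt_of_le_of_ne (hS.nonneg i) (Ne.symm hi)
        rw [hs] at this
        simp at this
      have : p = fun _ => 0 := funext h0
      have h2 := hS.sum
      rw [this] at h2
      have h3 := h2.unique hasSum_zero
      norm_num at h3
    have hc : (s.card : ℝ) ≠ 0 := by
      exact_mod_cast (Finset.card_pos.mpr hne).ne'
    filter_upwards [hFS Ω μ X p hS s hs] with ω hω
    have h2 : Tendsto (fun n : ℕ => (s.card : ℝ) / fI p n) atTop (𝓝 (s.card / s.card)) :=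
      tendsto_const_nhds.div h1 hc
    rw [div_self hc] at h2
    refine h2.congr' ?_
    filter_upwards [hω] with n hn
    rw [hn]
  · -- infinite support
    have hinf : {i | 0 < p i}.Infinite := hfin
    have hT := hF2 hinf
    obtain ⟨hU, hL⟩ := hB Ω μ X p hS
    refine hAS Ω μ (fun n ω => (LIS (fun k => X k ω) n : ℝ)) (fun n => fI p n)
      (fun n => (hEL Ω μ X p hS n).1) ?_ ?_ (fun n => (hEL Ω μ X p hS n).2.2) ?_ hT ?_
    · intro n ω
      refine ⟨Nat.cast_nonneg _, ?_⟩
      have := lis_le_length 2 ((List.range n).map (fun k => X k ω + 2))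
      rw [← hLX.1 (fun k => X k ω) n] at this
      simp only [List.length_map, List.length_range] at this
      exact_mod_cast this
    · intro n ω
      exact_mod_cast lis_mono_n hLX _ n
    · intro n hn
      exact_mod_cast hF1 n hn
    · -- the ratio of the expectation
      set e : ℕ → ℝ := fun n => ∫ ω, (LIS (fun k => X k ω) n : ℝ) ∂μ with he
      rw [Metric.tendsto_atTop]
      intro ε hε
      set δ : ℝ := min (ε / 2) (1 / 2) with hδ
      have hδ0 : 0 < δ := by positivity
      have hδ1 : δ < 1 := lt_of_le_of_lt (min_le_right _ _) (by norm_num)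
      obtain ⟨C, hC⟩ := hL δ hδ0 hδ1
      have ev1 : ∀ᶠ n : ℕ in atTop, max C 1 ≤ fI p n := hT.eventually_ge_atTop _
      have ev2 : Tendsto (fun n : ℕ => 1 / Real.sqrt n) atTop (𝓝 0) := by
        have h5 : Tendsto (fun n : ℕ => Real.sqrt (n : ℝ)) atTop atTop :=
          Real.tendsto_sqrt_atTop.comp tendsto_natCast_atTop_atTop
        simp only [one_div]
        exact h5.inv_tendsto_atTop
      have ev3 : ∀ᶠ n : ℕ in atTop, 1 / Real.sqrt n < ε / 2 := ev2.eventually_lt_const (by positivity)
      obtain ⟨n0, hn0⟩ := (ev1.and (ev3.and (eventually_ge_atTop 1))).exists_forall_of_atTop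
      refine ⟨n0, fun n hn => ?_⟩
      obtain ⟨h1, h2, h3⟩ := hn0 n hn
      have hf1 : 1 ≤ fI p n := (le_max_right _ _).trans h1
      have hf0 : 0 < fI p n := by linarith
      have hlow := hC n h3 ((le_max_left _ _).trans h1)
      have hup := hU n h3
      have q1 : 1 - δ ≤ e n / fI p n := by
        rw [le_div_iff₀ hf0]; exact hlow
      have q2 : e n / fI p n ≤ 1 + 1 / Real.sqrt n := by
        rw [div_le_iff₀ hf0]; exact hup
      rw [Real.dist_eq, abs_lt]
      have hδε : δ ≤ ε / 2 := min_le_left _ _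
      constructor
      · have : e n / fI p n - 1 ≥ -δ := by linarith
        linarith
      · linarith

end Pool.Agent.Q75.IS
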