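import Pool.Agent.Q75.IS.Base

/-!
Project IS (helper75): FULL ANSWER (true) of MP_6ef346_pr: for every law `p` on the integers the longest
increasing subsequence of `n` independent samples satisfies `L_n / f_n → 1` almost surely.

The lemma jobs, with complete proofs in the docstrings.  A job may use the statements listed in its
docstring as premises, e.g. a theorem `t_VAR (h1 : S_ERA) (h2 : S_ES) : S_VAR`.

Elementary facts (`lis_anti`, `lis_sublist`, `Ex_mono`, `Ex_add`, `Ex_const`, `Eb_split`, `Eb_succ`,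
`del_cases`, `step_ge`, …) are proved in `Pool.Agent.Q75.IS.Base`.
-/

set_option autoImplicit false

open Finset MeasureTheory ProbabilityTheory Filter Topology

namespace Pool.Agent.Q75.IS

/-! ## Words -/

/-- JOB ERA.  Induction on `w` for all `b`.  Let `w = x :: v`; `eraseIdx 0` gives `v`, `eraseIdx (k+1)` gives
`x :: v.eraseIdx k`.  If `x < b`, `lis b w = lis b v` and everything follows from the induction hypothesis.
Let `b ≤ x`, `lis b w = max (lis b v) (1 + lis (x+1) v)`.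
(i) If the maximum is `lis b v`: the term `k = 0` is `0`, the term `k + 1` is at most
`lis b v - lis b (v.eraseIdx k)`, so the sum is `≤ lis b v`.
(ii) If the maximum is `1 + lis (x+1) v`: the term `k = 0` is `≤ 1` (as `lis (x+1) v ≤ lis b v`), the term
`k + 1` is at most `lis (x+1) v - lis (x+1) (v.eraseIdx k)`, so the sum is `≤ 1 + lis (x+1) v`.
The first claim is the same case distinction. -/
def S_ERA : Prop := ∀ (b : ℕ) (w : List ℕ),
  (∀ k < w.length, lis b w ≤ lis b (w.eraseIdx k) + 1) ∧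
  ∑ k ∈ range w.length, ((lis b w : ℝ) - lis b (w.eraseIdx k)) ≤ lis b w

/-- JOB ES (tensorization of the variance, Efron and Stein).  Induction on `n`.  Let `c_e = Ex P M n (g (e :: ·))` and
`c = ∑ P e c_e`.  Then `Ex (n+1) (g - c)² = ∑ P e (Ex n (g (e :: w) - c_e)² + (c_e - c)²)`.  The first part
is bounded by the induction hypothesis for `g (e :: ·)` and `h' k v = h (k+1) (e :: v)`.  For the second,
`∑ P e (c_e - c)² ≤ ∑ P e (c_e - d)²` for every `d`; take `d = Ex n (h 0)`, so that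
`(c_e - d)² = (Ex n (g (e :: w) - h 0 w))² ≤ Ex n (g (e :: w) - h 0 w)²` (`Ex_sq_le`), and
`(e :: w).eraseIdx 0 = w`. -/
def S_ES : Prop := ∀ (P : ℕ → ℝ) (M : ℕ), Law P M → ∀ (n : ℕ) (g : List ℕ → ℝ) (h : ℕ → List ℕ → ℝ),
  Ex P M n (fun w => (g w - Ex P M n g) ^ 2) ≤
    ∑ k ∈ range n, Ex P M n (fun w => (g w - h k (w.eraseIdx k)) ^ 2)

/-- JOB VAR.  Premises `S_ERA`, `S_ES`.  Take `g w = lis b w`, `h k v = lis b v`.  The differences
`lis b w - lis b (w.eraseIdx k)` are `0` or `1` (integers in `[0,1]`: `lis_sublist` and `S_ERA`), so their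
squares are equal to them and the sum over `k` is at most `lis b w` by `S_ERA`. -/
def S_VAR : Prop := ∀ (P : ℕ → ℝ) (M : ℕ), Law P M → ∀ b n : ℕ,
  Ex P M n (fun w => ((lis b w : ℝ) - ell P M b n) ^ 2) ≤ ell P M b n

/-- JOB DEL.  Premise `S_ERA`.  First `Ex P M (n+1) (fun w => g (w.eraseIdx k)) = Ex P M n g` for `k ≤ n`
(induction; total mass one).  Taking expectations in `S_ERA` at length `n+1`:
`(n+1) ell (n+1) - (n+1) ell n ≤ ell (n+1)`, so `n ell (n+1) ≤ (n+1) ell n`.  The general case follows by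
induction on `n`.  The second claim: `lis_sublist` for the tail. -/
def S_DEL : Prop := ∀ (P : ℕ → ℝ) (M : ℕ), Law P M → ∀ b n m : ℕ, m ≤ n →
  (m : ℝ) * ell P M b n ≤ n * ell P M b m ∧ ell P M b m ≤ ell P M b n

/-- JOB EBM.  Induction on `M` with `Eb_succ`.  For `i ≤ M`, `(insert M D).filter (· < i) = D.filter (· < i)`.
For `i = M + 1` the cardinality is `card D + 1` or `card D` (for `D ⊆ Ico 2 M`); mean `m + ρ M`; and
`ρ E (X + 1 - m - ρ)² + (1-ρ) E (X - m - ρ)² = Var X + ρ (1-ρ)`. -/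
def S_EBM : Prop := ∀ (ρ : ℕ → ℝ) (M i : ℕ), (∀ j, 0 ≤ ρ j) → (∀ j, ρ j ≤ 1) → 2 ≤ M → i ≤ M →
  Eb ρ M (fun D => ((D.filter (fun j => j < i)).card : ℝ)) = ∑ j ∈ Ico 2 i, ρ j ∧
  Eb ρ M (fun D => (((D.filter (fun j => j < i)).card : ℝ) - ∑ j ∈ Ico 2 i, ρ j) ^ 2)
    ≤ ∑ j ∈ Ico 2 i, ρ j

/-- JOB SRC.  `Ex P M N (g ∘ take s) = Ex P M s g` and `Ex P M N (g ∘ drop s) = Ex P M (N - s) g` from
`Ex_append` (`N = s + (N - s)`) and `Ex_const`; the count of the letter `1` is binomial: mean and variance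
by induction. -/
def S_SRC : Prop := ∀ (P : ℕ → ℝ) (M : ℕ), Law P M → ∀ s N : ℕ, s ≤ N →
  (∀ g : List ℕ → ℝ, Ex P M N (fun w => g (w.take s)) = Ex P M s g) ∧
  (∀ g : List ℕ → ℝ, Ex P M N (fun w => g (w.drop s)) = Ex P M (N - s) g) ∧
  Ex P M s (fun w => (w.count 1 : ℝ)) = P 1 * s ∧
  Ex P M s (fun w => ((w.count 1 : ℝ) - P 1 * s) ^ 2) ≤ P 1 * s

/-! ## The stationary process -/

/-- JOB STA (stationarity of the product measure).  Write `E = Eb (rh P (P 1)) M`, `q i = P i`, `a = P 1`,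
`A i = E (g (del i D) - g D)` for `2 ≤ i ≤ M`, `B i = E (g (step i D) - g D)`, `step i D = insert i (del i D)`.
`A M = 0`.  Claim: `a (A i - A (i+1)) + q i B i = 0` for `2 ≤ i < M`.  Use `Eb_split` for `i`: for `D` not
containing `i` put `Y D = g (insert i (del (i+1) D)) - g D`.  If `i` is not in the set, `del i D = del (i+1) D`,
so `A i - A (i+1)` has no contribution and `B i` contributes `Y D`; if `i` is in the set `insert i D`,
`del i (insert i D) = D`, `del (i+1) (insert i D) = insert i (del (i+1) D)`, `step i (insert i D) = insert i D`,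
so the contribution to `A i - A (i+1)` is `- Y D` and to `B i` it is `0`.  The total is
`∑ weights (- a ρ + q (1 - ρ)) Y D = 0` because `a ρ = q (1 - ρ)` for `ρ = q / (q + a)` (also if
`q + a = 0`).  Summing over `2 ≤ i < M`: `a A 2 + ∑ q i B i = 0`, and the left side of the claim minus the right
side is exactly this (`step 0 D = D`, `step 1 D = del 2 D`, total mass one). -/
def S_STA : Prop := ∀ (P : ℕ → ℝ) (M : ℕ), Law P M → ∀ g : Finset ℕ → ℝ,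
  ∑ e ∈ range M, P e * Eb (rh P (P 1)) M (fun D => g (step e D)) = Eb (rh P (P 1)) M g

/-- JOB UDET.  Prove by induction on `w`, for all `D` and all `i ≥ 2`, that
`card (D.filter (· < i)) + lis i w ≤ w.count 1 + card (run D w)`; the claim is the case `i = 2`.
For `w = e :: v`: `e = 0` trivial; `e = 1`: `card (D.filter (· < i)) ≤ 1 + card ((del 2 D).filter (· < i))`.
`e ≥ 2`: `card ((step e D).filter (· < i)) ≥ card (D.filter (· < i))` always; this gives the case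
`lis i w = lis i v`.  If `i ≤ e` and `lis i w = 1 + lis (e+1) v`: `(step e D).filter (· < e+1)` is
`D.filter (· < e)` together with `e`, so its cardinality is `1 + card (D.filter (· < e))`, at least
`1 + card (D.filter (· < i))`; use the induction hypothesis for `e + 1`. -/
def S_UDET : Prop := ∀ (w : List ℕ) (D : Finset ℕ), lis 2 w ≤ w.count 1 + (run D w).card

/-- JOB VDET (exit from the boundary).  Induction on `w`, `w = e :: v`, induction hypothesis for `step e D`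
(`step_ge2`).  Write `c i D = card (D.filter (· < i))`.
If the hypothesis gives `s` (time exit) use `s + 1` for `w`.
If it gives `i ≥ 2` with `count v + card ≤ c i (step e D) + lis i v`:
`e = 0`: the same `i`.
`e = 1`: if `D` has an element in `[2, i)` then `c i (del 2 D) = c i D - 1`, the same `i`; otherwise
`c i (del 2 D) = 0` and `s = 1` works as `lis i v ≤ lis 2 v`.
`e ≥ 2`, `i ≤ e`: `c i (step e D) = c i D`.
`e ≥ 2`, `e < i`: if `D` has an element in `[e, i)` then `c i (step e D) = c i D` (one removed in `[e,i)`, `e`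
inserted); otherwise `c i (step e D) = 1 + c e D` and `lis e (e :: v) ≥ 1 + lis (e+1) v ≥ 1 + lis i v`, so
the exit index `e` works.  `w = []`: an index `i` larger than all elements of `D`. -/
def S_VDET : Prop := ∀ (w : List ℕ) (D : Finset ℕ), (∀ j ∈ D, 2 ≤ j) →
  (∃ s ≤ w.length, w.count 1 + (run D w).card ≤ (w.take s).count 1 + lis 2 (w.drop s)) ∨
  (∃ i, 2 ≤ i ∧ w.count 1 + (run D w).card ≤ (D.filter (fun j => j < i)).card + lis i w)

/-- JOB INV (only the weights of the letters `≥ b` matter).  `lis b w = lis b (w.filter (b ≤ ·))`, and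
`Ex P M n (fun w => h (w.filter (b ≤ ·)))` is the same for `P` and `P'` by induction on `n`: the letters
`< b` have the same total mass `1 - ∑_{b ≤ i < M} P i` and the same effect. -/
def S_INV : Prop := ∀ (P P' : ℕ → ℝ) (M b : ℕ), Law P M → Law P' M → b ≤ M →
  (∀ i, b ≤ i → i < M → P i = P' i) → ∀ n, ell P M b n = ell P' M b n

/-- JOB UP (upper bound).  Premises `S_STA`, `S_EBM`, `S_SRC`, `S_UDET`, `S_INV`.  Let `P' 1 = a`,
`P' i = P i` for `b ≤ i < M`, `P' 0 = 1 - a - ∑_{b ≤ i < M} P i`, `P' i = 0` otherwise; it is a law.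
`ell P M b n = ell P' M b n ≤ ell P' M 2 n` (`S_INV`, `lis_anti`).  By `S_UDET`, for `ρ = rh P' a`,
`ell P' M 2 n ≤ Eb ρ M (fun D => Ex P' M n (fun w => w.count 1 + card (run D w)))`; the first part is
`a n` (`S_SRC`), the second is `Eb ρ M (fun D => card D)` by `S_STA` and induction on `n` (the law of
`run D w` under `Eb ⊗ Ex` is that of `D`; theorem `Eb_run` in `Pool.Agent.Q75.IS.Stm2` does this), which is
`∑_{2 ≤ i < M} rh P' a i` (`S_EBM` with `i = M`), and `rh P' a i = 0` for `i < b`. -/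
def S_UP : Prop := ∀ (P : ℕ → ℝ) (M b n : ℕ) (a : ℝ), Law P M → 2 ≤ b → b ≤ M → 0 ≤ a →
  a + ∑ i ∈ Ico b M, P i ≤ 1 → ell P M b n ≤ FF P M b a n

/-- JOB THIN (thinning).  Premise `S_INV`.  By `S_INV` we may assume `P 1 = Q 1 = 0`
and `Q 0 = θ P 0 + (1 - θ)`, so `Q e = θ P e + (1-θ) [e = 0]` for all `e < M`.
Define `T θ w g` for a word `w` by `T θ [] g = g []`,
`T θ (x :: v) g = θ T θ v (g (x :: ·)) + (1-θ) T θ v (g (0 :: ·))`.  By induction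
`Ex Q M n g = Ex P M n (fun w => T θ w g)`.  Claim: `θ lis b w ≤ T θ w (lis b) ≤ lis b w` for `b ≥ 1`.
Upper bound: replacing letters by `0` does not increase `lis b`.  Lower bound by induction on `w = x :: v`:
if `lis b w = lis b v`, both parts are at least `T θ v (lis b)`; if `b ≤ x` and
`lis b w = 1 + lis (x+1) v` then `lis b (x :: u) ≥ 1 + lis (x+1) u` and `lis b (0 :: u) ≥ lis (x+1) u`, so
`T θ w (lis b) ≥ θ + T θ v (lis (x+1)) ≥ θ + θ lis (x+1) v`.  (The second inequality `ell Q ≤ ell P` follows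
from `T θ w (lis b) ≤ lis b w`.) -/
def S_THIN : Prop := ∀ (P Q : ℕ → ℝ) (M n : ℕ) (θ : ℝ), Law P M → Law Q M → 0 ≤ θ → θ ≤ 1 →
  (∀ i, 2 ≤ i → i < M → Q i = θ * P i) →
  θ * ell P M 2 n ≤ ell Q M 2 n ∧ ell Q M 2 n ≤ ell P M 2 n

/-- JOB UPM.  Premises `S_THIN`, `S_UP`.  Let `t = 1/√n` and `μ = min l t`.  (1) `FF P M 2 μ n ≤ FF P M 2 l n`: if
`l > t` then `FF l - FF t = (l - t)(n - ∑ P i/((P i + l)(P i + t))) ≥ 0` because
`P i/((P i + l)(P i + t)) ≤ P i/(l t) ≤ n P i`.  (2) Let `θ = 1/(1+μ)`, `Q i = θ P i` for `2 ≤ i < M`,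
`Q 0 = 1 - ∑`, `Q i = 0` otherwise.  `a = μ θ` satisfies `a + ∑ Q i ≤ (μ + 1) θ = 1`.  So
`ell P ≤ (1+μ) ell Q ≤ (1+μ) FF Q M 2 a n = (1+μ)(μ θ n + ∑ P i/(P i + μ)) ≤ (1+μ) FF P M 2 μ n`. -/
def S_UPM : Prop := ∀ (P : ℕ → ℝ) (M n : ℕ) (l : ℝ), Law P M → 1 ≤ n → 0 ≤ l →
  ell P M 2 n ≤ (1 + 1 / Real.sqrt n) * FF P M 2 l n

/-! ## Collecting frequent letters -/

/-- JOB GRE (greedy).  Define `Z [] w = 0`, `Z (j :: js) [] = 0`,
`Z (j :: js) (e :: w) = 1/P j - 1 + Z js w` if `e = j` and `-1 + Z (j :: js) w` otherwise.  Claim: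
`Ex P M n (fun w => (c + Z js w)²) ≤ c² + n B` for all real `c`, by induction on `n`: for `js = j :: js'`
condition on the first letter, with `p = P j`:
`p (c + 1/p - 1)² + (1-p)(c - 1)² = c² + (1-p)/p ≤ c² + B` (`p ≤ 1`, `j < M`, total mass one; all letters `e ≠ j` have the same
effect).  (For `js = []` it is `c²`; `B ≥ 0` unless `js = []`, where we use that `B ≥ 0` is assumed.)
If `js` is not a sublist of `w` then `Z js w ≤ ∑_{js} 1/P - |w|` (induction: `(j :: js) <+ (e :: w)` iff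
`js <+ w` when `e = j`, iff `(j :: js) <+ w` when `e ≠ j`).  Hence, with `c = 0`, on this event
`(Z js w)² ≥ (n - ∑ 1/P)²`, and the inequality of Chebyshev gives the claim. -/
def S_GRE : Prop := ∀ (P : ℕ → ℝ) (M n : ℕ) (js : List ℕ) (B : ℝ), Law P M → 0 ≤ B →
  (∀ j ∈ js, j < M ∧ 0 < P j ∧ 1 / P j ≤ B) → (js.map (fun j => 1 / P j)).sum < n →
  1 - n * B / (n - (js.map (fun j => 1 / P j)).sum) ^ 2 ≤
    Ex P M n (fun w => if js.Sublist w then 1 else 0)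

/-- JOB GE.  Premise `S_GRE`.  Let `js = J.sort (· ≤ ·)`, strictly increasing.  For words `u`, `v`: `lis 2 (u ++ v) ≥ lis i v`
always, and if `js <+ u` then `lis 2 (u ++ v) ≥ card J + lis i v`, because all letters of `J` are in `[2, i)`:
by `lis_sublist` it is enough that `js.length + lis i v ≤ lis c (js ++ v)` when `js` is strictly increasing with
letters in `[c, i)` (induction on `js`).  Integrate with `Ex_append`. -/
def S_GE : Prop := ∀ (P : ℕ → ℝ) (M i r n : ℕ) (J : Finset ℕ) (B : ℝ), Law P M → 0 ≤ B → 2 ≤ i →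
  (∀ j ∈ J, 2 ≤ j ∧ j < i ∧ j < M ∧ 0 < P j ∧ 1 / P j ≤ B) → (∑ j ∈ J, 1 / P j) < r →
  (J.card : ℝ) * (1 - r * B / (r - ∑ j ∈ J, 1 / P j) ^ 2) + ell P M i n ≤ ell P M 2 (r + n)

/-! ## Exit points -/

/-- JOB MAXE.  Let `E G = Eb ρ M (fun D => Ex P M N (fun w => G D w))`, a positive normalized linear
functional, `V = card T * v`.  For `τ > 0` and any `D`, `w`:
`W D w - C ≤ Z t D w - c t ≤ (Z t D w - c t)²/(2 τ) + τ/2 ≤ ∑_t (Z t D w - c t)²/(2 τ) + τ/2`.  So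
`E W ≤ C + V/(2τ) + τ/2`; if `V > 0` take `τ = √V`; if `V = 0` let `τ → 0`. -/
def S_MAXE : Prop := ∀ (ρ P : ℕ → ℝ) (M N : ℕ) (T : Finset ℕ) (Z : ℕ → Finset ℕ → List ℕ → ℝ)
  (c : ℕ → ℝ) (v C : ℝ) (W : Finset ℕ → List ℕ → ℝ), Law P M → (∀ j, 0 ≤ ρ j) → (∀ j, ρ j ≤ 1) →
  0 ≤ v →
  (∀ t ∈ T, Eb ρ M (fun D => Ex P M N (fun w => (Z t D w - c t) ^ 2)) ≤ v) →
  (∀ t ∈ T, c t ≤ C) →
  (∀ D ⊆ Ico 2 M, ∀ w : List ℕ, w.length = N → (∀ e ∈ w, e < M) → ∃ t ∈ T, W D w ≤ Z t D w) →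
  Eb ρ M (fun D => Ex P M N (fun w => W D w)) ≤ C + Real.sqrt (T.card * v)

/-- JOB GRID.  Let `G i = ∑_{2 ≤ j < i} ρ j` (nondecreasing, steps at most `1`), and let `i k` be the largest
`i ≤ M`, `i ≥ 2`, with `G i ≤ k S / K`.  `i K = M` as `G M ≤ S`.  If `i k < M` then
`G (i k) > k S/K - 1`, so `G (i (k+1)) ≤ (k+1) S/K < G (i k) + S/K + 1`; if `i k = M` it is clear.  If
`i 0 ≠ 2` redefine `i 0 = 2`: `G (i 1) ≤ S/K`. -/
def S_GRID : Prop := ∀ (ρ : ℕ → ℝ) (M K : ℕ) (S : ℝ), (∀ j, 0 ≤ ρ j) → (∀ j, ρ j ≤ 1) → 2 ≤ M →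
  1 ≤ K → (∑ j ∈ Ico 2 M, ρ j) ≤ S →
  ∃ i : ℕ → ℕ, i 0 = 2 ∧ i K = M ∧ (∀ k < K, i k ≤ i (k + 1)) ∧ (∀ k ≤ K, 2 ≤ i k ∧ i k ≤ M) ∧
    ∀ k < K, (∑ j ∈ Ico 2 (i (k + 1)), ρ j) ≤ (∑ j ∈ Ico 2 (i k), ρ j) + S / K + 1

/-- JOB EXIT.  Premises `S_VAR`, `S_EBM`, `S_SRC`, `S_STA`, `S_VDET`, `S_INV`, `S_UP`, `S_MAXE`, `S_GRID`
(and `Eb_run` of `Pool.Agent.Q75.IS.Stm2`).
Replace `P` by the law `P'` with `P' 1 = a`, `P' i = P i` for `2 ≤ i < M`, `P' 0` the rest (`S_INV` with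
`b = i ≥ 2`); `ρ = rh P' a = rh P a` on `Ico 2 M`.  `F = FF P M 2 a N = a N + ∑ ρ`.
`W D w = w.count 1 + card (run D w)` has `E W = F` (`S_SRC`, `Eb_run`, `S_EBM`).
Time grid `s k = k N / K` (natural division), `k ≤ K`; letter grid `i k` of `S_GRID` with `S = F`.
For `k < K` let `Z (2k) D w = (w.take (s (k+1))).count 1 + lis 2 (w.drop (s k))`, with mean
`a s (k+1) + ell P' M 2 (N - s k)`, and
`Z (2k+1) D w = card (D.filter (· < i (k+1))) + lis (i k) w` with mean `∑_{j < i (k+1)} ρ j + ell P' M (i k) N`.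
By `S_VDET`: a time exit at `s` lies in some `[s k, s (k+1)]`, and `W ≤ Z (2k)` by monotonicity of the counts and
`lis_sublist`; a letter exit at `i` may be assumed `≤ M` (`D ⊆ Ico 2 M`, letters `< M`) and lies in some
`[i k, i (k+1)]`, so `W ≤ Z (2k+1)` by `lis_anti`.
Variances: `(u + v)² ≤ 2 u² + 2 v²` and `S_SRC`, `S_EBM`, `S_VAR` give at most `2 F + 2 F = 4 F` each
(`a s ≤ F`, `∑ ρ ≤ F`, `ell ≤ F` by `S_UP` and monotonicity).  `S_MAXE` with `T = range (2K)`, `C` the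
maximum of the means gives `F ≤ C + √(8 K F)`, so some mean is `≥ F - √(8 K F)`.
Finally `a s (k+1) ≤ a s k + a (N/K + 1) ≤ a s k + F/K + 1` and
`∑_{j < i (k+1)} ρ j ≤ ∑_{j < i k} ρ j + F/K + 1`. -/
def S_EXIT : Prop := ∀ (P : ℕ → ℝ) (M N K : ℕ) (a : ℝ), Law P M → 0 ≤ a →
  a + ∑ i ∈ Ico 2 M, P i ≤ 1 → 1 ≤ K →
  (∃ s ≤ N, FF P M 2 a N - (FF P M 2 a N / K + 1 + Real.sqrt (8 * K * FF P M 2 a N))
      ≤ a * s + ell P M 2 (N - s)) ∨
  (∃ i, 2 ≤ i ∧ i ≤ M ∧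
    FF P M 2 a N - (FF P M 2 a N / K + 1 + Real.sqrt (8 * K * FF P M 2 a N))
      ≤ ∑ j ∈ Ico 2 i, rh P a j + ell P M i N)

/-! ## Real analysis -/

/-- JOB AST.  `psi P M a ≤ (∑ P i)/a² ≤ 1/a²`, so `psi P M (1/√N) ≤ N`.  If `psi P M 0 ≤ N` take `a = 0`.  Otherwise the
intermediate value theorem on `[0, 1/√N]` (each summand is continuous on `[0, ∞)`: it is `0` if `P i = 0`). -/
def S_AST : Prop := ∀ (P : ℕ → ℝ) (M N : ℕ), (∀ i, 0 ≤ P i) → (∑ i ∈ Ico 2 M, P i) ≤ 1 → 1 ≤ N →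
  ∃ a : ℝ, 0 ≤ a ∧ a ≤ 1 / Real.sqrt N ∧ psi P M a ≤ N ∧ (a = 0 ∨ psi P M a = N)

/-- JOB LOSS1.  Let `σ = s/N`, `η = σ/2`.
`P/(P + (1+η)a) = P/(P+a) - η a P/((P+a)(P+(1+η)a)) ≤ P/(P+a) - (η a/(1+η)) P/(P+a)²`, so the left side is
at most `F + η a N ((1-σ) - 1/(1+η))`, and `(1-σ) - 1/(1+σ/2) = -(σ/2)(1+σ)/(1+σ/2) ≤ -σ/2`. -/
def S_LOSS1 : Prop := ∀ (P : ℕ → ℝ) (M N s : ℕ) (a : ℝ), (∀ i, 0 ≤ P i) → 0 < a → 1 ≤ N →
  psi P M a = N → s ≤ N →
  FF P M 2 (a * (1 + s / (2 * N))) (N - s) + a * s ≤ FF P M 2 a N - a * s ^ 2 / (4 * N)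

/-- JOB LOSS2.  Let `A` be the sum, `α = A/N ∈ [0,1]`, `η = α/2`.
`P/(P + (1-η)a) - P/(P+a) = η a P/((P+a)(P+(1-η)a)) ≤ (η a/(1-η)) P/(P+a)²`, so the left side is at most
`F - η a N + η a (N - A)/(1-η) = F - η a N (α - η)/(1-η) ≤ F - a N α²/4`. -/
def S_LOSS2 : Prop := ∀ (P : ℕ → ℝ) (M N i : ℕ) (a A : ℝ), (∀ i, 0 ≤ P i) → 0 < a → 1 ≤ N →
  psi P M a = N → 2 ≤ i → i ≤ M → A = ∑ j ∈ Ico 2 i, P j / (P j + a) ^ 2 →
  ∑ j ∈ Ico 2 i, rh P a j + FF P M i (a * (1 - A / (2 * N))) N ≤ FF P M 2 a N - a * A ^ 2 / (4 * N)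

/-- JOB CB (the case `a N ≥ c F`).  Premises `S_EXIT`, `S_UP`, `S_LOSS1`, `S_LOSS2`, `S_DEL`, `S_GE`.
Write `F = FF P M 2 a N`.  Choose a small `κ > 0`, then `K ≥ 4/κ`, then `C` so large that
`F/K + 1 + √(8KF) ≤ κ F` for `F ≥ C`.  Apply `S_EXIT`.
(T) time exit at `s`: `(1-κ)F ≤ a s + ell P M 2 (N-s) ≤ F - a s²/(4N)` by `S_UP` with
`a' = a (1 + s/(2N)) ≤ 2a` and `S_LOSS1`.  So `a s² ≤ 4 κ F N`, `(a s)² ≤ 4 κ F (a N) ≤ 4 κ F²`,
`a s ≤ 2 √κ F`, and `ell P M 2 N ≥ ell P M 2 (N-s) ≥ (1 - κ - 2√κ) F` (`S_DEL`, second claim).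
(H) letter exit at `i`, `A = ∑_{j<i} P j/(P j + a)²`, `α = A/N`: by `S_UP` (with `b = i`) and `S_LOSS2`,
`a A² ≤ 4 κ F N`, so `α² ≤ 4 κ F/(a N) ≤ 4κ/c`, `α ≤ α0 = 2 √(κ/c)`.
`J = {2 ≤ j < i : a ≤ P j}`.  For `j < i` not in `J`, `rh P a j = (P j + a) P j/(P j + a)² ≤ 2 a P j/(P j + a)²`,
sum `≤ 2 a A ≤ 2 α0 F`.  So `card J + ell P M i N ≥ (1 - κ - 2 α0) F`.
`∑_J 1/P j ≤ 4 A ≤ 4 α0 N`, `1/P j ≤ B = 1/a`.  Let `β = 8 α0`, `r = ⌈β N⌉ ≤ 2 β N ≤ N` (`N` is large: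
`c F ≤ a N ≤ √N` because `a ≤ 1/√N` from `psi P M a = N`).  `r B/(r - ∑)² ≤ 4/(a r) ≤ 4/(β a N) ≤ 4/(β c F)`, small
for `F ≥ C`.  `S_GE` with `n = N - r` and `S_DEL` (`(N-r) ell P M i N ≤ N ell P M i (N-r)`) give
`ell P M 2 N ≥ (1 - 4/(β c F)) card J + (1 - 2β) ell P M i N`.  Choose `κ` small in terms of `ε`, `c`. -/
def S_CB : Prop := ∀ ε : ℝ, 0 < ε → ∀ c : ℝ, 0 < c → ∃ C : ℝ, ∀ (P : ℕ → ℝ) (M N : ℕ) (a : ℝ), Law P M →
  1 ≤ N → 0 < a → 2 * a + ∑ i ∈ Ico 2 M, P i ≤ 1 → psi P M a = N → c * FF P M 2 a N ≤ a * N →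
  C ≤ FF P M 2 a N → (1 - ε) * FF P M 2 a N ≤ ell P M 2 N

/-- JOB CA (the case `a N ≤ c F`).  Premises `S_DEL`, `S_GE`.  Let `K` be a large integer, `η` small,
`J = {2 ≤ j < M : 0 < P j, K a ≤ P j, K/N ≤ P j}`.  The other letters: `P j = 0` contributes `0`; `P j < K a`:
`rh P a j = (P j + a) P j/(P j + a)²`, sum `≤ (K+1) a psi ≤ (K+1) a N`; `K a ≤ P j`, `0 < P j < K/N`:
`P j/(P j+a)² ≥ 1/(4 P j) ≥ N/(4K)`, so at most `4K` of them, each contributes `≤ 1`.  So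
`F ≤ (K+2) a N + 4K + card J`, `card J ≥ (1 - (K+2)c) F - 4K`.
`∑_J 1/P j ≤ (1+1/K)² ∑ P j/(P j+a)² ≤ (1+1/K)² N`, and `1/P j ≤ B = N/K`.
`card J ≤ ∑_J 1/P j ≤ 4N` (`P j ≤ 1`), so `N` is large if `F` is.  Let `r = ⌈((1+1/K)² + η) N⌉`, `r ≤ 6N`:
`r B/(r-∑)² ≤ 6/(K η²)`.  `S_GE` with `i = M`, `n = 0` (if `M = 2` then `F = a N ≤ c F`, `F ≤ 0` or `c ≥ 1`, excluded by `C ≥ 1`, `c < 1`):
`ell P M 2 r ≥ card J (1 - 6/(K η²))`.  `S_DEL`: `N ell P M 2 r ≤ r ell P M 2 N` (`N ≤ r`), and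
`N/r ≥ 1/((1+1/K)² + η + 1/N)`.  Choose first `η`, then `K`, then `c`, then `C`. -/
def S_CA : Prop := ∀ ε : ℝ, 0 < ε → ∃ c : ℝ, 0 < c ∧ ∃ C : ℝ, ∀ (P : ℕ → ℝ) (M N : ℕ) (a : ℝ), Law P M →
  1 ≤ N → 0 ≤ a → psi P M a ≤ N → a * N ≤ c * FF P M 2 a N →
  C ≤ FF P M 2 a N → (1 - ε) * FF P M 2 a N ≤ ell P M 2 N

/-- JOB LBM (lower bound, finite alphabets).  Premises `S_AST`, `S_CA`, `S_CB`, `S_THIN`.
First for laws `Q` with `2/√N + ∑_{2 ≤ i < M} Q i ≤ 1`: take `c`, `C1` from `S_CA ε'`, `C2` from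
`S_CB ε' c`, `a` from `S_AST`; if `a N ≤ c F` use `S_CA`, otherwise `a > 0`, `psi = N`, `2a ≤ 2/√N` and `S_CB`.
For general `P`: `C ≤ FF P M 2 (1/√N) N ≤ √N + √N (∑ P i) ≤ 2√N`, so `N` is large.  `θ = 1 - 2/√N`,
`Q i = θ P i` for `2 ≤ i < M`, `Q 0 = 1 - ∑`, `Q i = 0` otherwise.  `FF Q M 2 a N ≥ θ FF P M 2 a N`
(`θ P/(θ P + a) ≥ θ P/(P + a)`), `ell P M 2 N ≥ ell Q M 2 N` (`S_THIN`). -/
def S_LBM : Prop := ∀ ε : ℝ, 0 < ε → ∃ C : ℝ, ∀ (P : ℕ → ℝ) (M N : ℕ), Law P M → 1 ≤ N →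
  (∀ a : ℝ, 0 ≤ a → C ≤ FF P M 2 a N) →
  ∃ a : ℝ, 0 ≤ a ∧ (1 - ε) * FF P M 2 a N ≤ ell P M 2 N

/-! ## Infinite alphabets and almost sure convergence -/

/-- the samples: independent with law `p` -/
structure Samp {Ω : Type} [MeasurableSpace Ω] (μ : Measure Ω) (X : ℕ → Ω → ℕ) (p : ℕ → ℝ) : Prop where
  nonneg : ∀ i, 0 ≤ p i
  sum : HasSum p 1
  meas : ∀ k, Measurable (X k)
  indep : iIndepFun X μ
  law : ∀ k i, μ.real (X k ⁻¹' {i}) = p i

/-- JOB LAW.  For a list `v` of length `n` with letters `< M`, the event `word X M n = v` is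
the intersection over `k < n` of `{X k + 2 = v_k}` (if `v_k ≥ 2`) or `{X k + 2 ≥ M}` (if `v_k = 0`), and is
empty if some `v_k = 1`; by independence its probability is the product of `tr p M (v_k)`.  Either sum over all
words or do an induction on `n` (splitting the first or the last letter, with the shifted sequence). -/
def S_LAW : Prop := ∀ (Ω : Type) [MeasurableSpace Ω] (μ : Measure Ω) [IsProbabilityMeasure μ]
  (X : ℕ → Ω → ℕ) (p : ℕ → ℝ), Samp μ X p → ∀ (M n : ℕ) (g : List ℕ → ℝ), 2 ≤ M →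
  Integrable (fun ω => g (word X M n ω)) μ ∧ ∫ ω, g (word X M n ω) ∂μ = Ex (tr p M) M n g

/-- JOB LISX.  (1) `LIS x n` is the maximum of the cardinalities of the sets `s ⊆ range n` on which `x` is strictly
increasing; `lis 2` of the word is the same: more generally for a list `w`, `lis b w` is the largest length of a
sublist of `w` that is strictly increasing with letters `≥ b` (induction), and increasing sublists of
`(List.range n).map f` correspond to sets `s` (sorted list of `s`).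
(2) Replacing letters by `0` gives a smaller `lis 2`: induction on `w`, more generally for `lis b`, `b ≥ 1`. -/
def S_LISX : Prop := (∀ (x : ℕ → ℕ) (n : ℕ), LIS x n = lis 2 ((List.range n).map (fun k => x k + 2))) ∧
  (∀ (w : List ℕ) (f : ℕ → ℕ), (∀ x, f x = x ∨ f x = 0) → lis 2 (w.map f) ≤ lis 2 w)

/-- JOB EL.  Premises `S_LAW`, `S_LISX`, `S_VAR`.  `LIS (X · ω) n` is a measurable function of `(X k ω)_{k<n}`
(countable discrete values), at most `n`.  For fixed `ω`, `lis 2 (word X M n ω) ≤ LIS (X · ω) n` with equality for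
all `M` larger than all `X k ω + 2`, `k < n` (`word` is obtained from `(X k ω + 2)_k` by replacing the letters
`≥ M` by `0`).  Dominated convergence with bound `n` gives (2), and
`∫ (lis 2 (word X M n) - ell)² ≤ ell` (`S_LAW`, `S_VAR`) gives (3) in the limit `M → ∞`. -/
def S_EL : Prop := ∀ (Ω : Type) [MeasurableSpace Ω] (μ : Measure Ω) [IsProbabilityMeasure μ]
  (X : ℕ → Ω → ℕ) (p : ℕ → ℝ), Samp μ X p → ∀ n : ℕ,
  Measurable (fun ω => (LIS (fun k => X k ω) n : ℝ)) ∧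
  Tendsto (fun M => ell (tr p M) M 2 n) atTop (𝓝 (∫ ω, (LIS (fun k => X k ω) n : ℝ) ∂μ)) ∧
  ∫ ω, ((LIS (fun k => X k ω) n : ℝ) - ∫ ω, (LIS (fun k => X k ω) n : ℝ) ∂μ) ^ 2 ∂μ
    ≤ ∫ ω, (LIS (fun k => X k ω) n : ℝ) ∂μ

/-- JOB FM.  Let `r = 1 - ∑_{i < M-2} p i ≥ 0` be the tail mass, `FF (tr p M) M 2 a n = a n + ∑_{i<M-2} p i/(p i + a)`.
For `a > 0` the series `∑ p i/(p i + a)` converges (`≤ p i/a`) and `fI p n ≤ a n + ∑' p i/(p i + a)` (take `x = a n`).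
If `r > 0` and `a ≥ √r`: the tail of the series is `≤ r/a ≤ √r`.  If `r > 0`, `0 ≤ a < √r`:
`FF a ≥ ∑_{i<M-2} p i/(p i + √r) = FF (√r) - n √r ≥ fI p n - √r - n √r`.  If `r = 0` then `p i = 0` for
`i ≥ M - 2`, the series is a finite sum for every `a ≥ 0`, and `FF a` is one of the values in the infimum. -/
def S_FM : Prop := ∀ p : ℕ → ℝ, (∀ i, 0 ≤ p i) → HasSum p 1 → ∀ (n M : ℕ) (a : ℝ), 1 ≤ n → 2 ≤ M → 0 ≤ a →
  fI p n - (n + 1) * Real.sqrt (1 - ∑ i ∈ range (M - 2), p i) ≤ FF (tr p M) M 2 a n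

/-- JOB BND.  Premises `S_EL`, `S_UPM`, `S_LBM`, `S_FM`.  Let `e n` be the expectation of `LIS`.  Upper bound: for
`x ≥ 0` with summable series, `l = x/n`, `ell (tr p M) M 2 n ≤ (1+1/√n) FF (tr p M) M 2 l n` and
`FF (tr p M) M 2 l n = x + ∑_{i<M-2} n p i/(n p i + x) ≤ x + ∑' …`; let `M → ∞`, take the infimum.  Lower bound: let `C` be
from `S_LBM ε`; if `fI p n ≥ C + 1` then for all large `M` (`(n+1)√r ≤ 1`) all values `FF (tr p M) M 2 a n ≥ C`, so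
`ell ≥ (1-ε) FF a ≥ (1-ε)(fI p n - (n+1)√r)`; let `M → ∞`. -/
def S_BND : Prop := ∀ (Ω : Type) [MeasurableSpace Ω] (μ : Measure Ω) [IsProbabilityMeasure μ]
  (X : ℕ → Ω → ℕ) (p : ℕ → ℝ), Samp μ X p →
  (∀ n : ℕ, 1 ≤ n → ∫ ω, (LIS (fun k => X k ω) n : ℝ) ∂μ ≤ (1 + 1 / Real.sqrt n) * fI p n) ∧
  (∀ ε : ℝ, 0 < ε → ε < 1 → ∃ C : ℝ, ∀ n : ℕ, 1 ≤ n → C ≤ fI p n →
    (1 - ε) * fI p n ≤ ∫ ω, (LIS (fun k => X k ω) n : ℝ) ∂μ)

/-- JOB FI.  For fixed `x` the value `x + ∑ t p/(t p + x)` is nondecreasing in `t`, and for `t = n+1` it is at most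
`(n+1)/n` times the value for `t = n`.  If `p i > 0` for `i` in a finite set `s` then the value is at least
`x + ∑_{i∈s} t p i/(t p i + x)`, which is `≥ card s` if `x ≥ card s` and `≥ ∑_{i∈s} t p i/(t p i + card s)`
otherwise (tends to `card s` as `t → ∞`).  If the support is finite, `x = 0` gives `fI ≤ card`. -/
def S_FI : Prop := ∀ p : ℕ → ℝ, (∀ i, 0 ≤ p i) → HasSum p 1 →
  (∀ n : ℕ, 1 ≤ n → 0 ≤ fI p n ∧ fI p n ≤ fI p (n + 1 : ℕ) ∧ fI p (n + 1 : ℕ) ≤ (1 + 1 / n) * fI p n) ∧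
  ({i | 0 < p i}.Infinite → Tendsto (fun n : ℕ => fI p n) atTop atTop) ∧
  (∀ s : Finset ℕ, {i | 0 < p i} = s → Tendsto (fun n : ℕ => fI p n) atTop (𝓝 (s.card : ℝ)))

/-- JOB AS (monotone sequences with small variance).  Let `δ > 0`, `b k = (1+δ)^k` and let `n k` be the least
`n ≥ 1` with `f n ≥ b k`; for large `k`, `f (n k) ≤ b k (1 + δ)` (as `f (n+1) ≤ (1+1/n) f n` and `n k → ∞`).
Chebyshev: `μ (|L (n k) - e (n k)| > δ e (n k)) ≤ 1/(δ² e (n k))`, summable since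
`e (n k) ≥ f (n k)/2 ≥ b k/2` for large `k`.  Borel and Cantelli: almost surely
`|L (n k)/f (n k) - 1| ≤ 3δ` for large `k`.  For `n k ≤ n < n (k+1)`: `L (n k)/f (n (k+1)) ≤ L n/f n ≤ L (n (k+1))/f (n k)`
and `f (n (k+1))/f (n k) ≤ (1+δ)²`.  Let `δ → 0` along a sequence. -/
def S_AS : Prop := ∀ (Ω : Type) [MeasurableSpace Ω] (μ : Measure Ω) [IsProbabilityMeasure μ]
  (L : ℕ → Ω → ℝ) (f : ℕ → ℝ), (∀ n, Measurable (L n)) → (∀ n ω, 0 ≤ L n ω ∧ L n ω ≤ n) →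
  (∀ n ω, L n ω ≤ L (n + 1) ω) →
  (∀ n, ∫ ω, (L n ω - ∫ ω, L n ω ∂μ) ^ 2 ∂μ ≤ ∫ ω, L n ω ∂μ) →
  (∀ n : ℕ, 1 ≤ n → 0 ≤ f n ∧ f n ≤ f (n + 1) ∧ f (n + 1) ≤ (1 + 1 / n) * f n) →
  Tendsto f atTop atTop →
  Tendsto (fun n => (∫ ω, L n ω ∂μ) / f n) atTop (𝓝 1) →
  ∀ᵐ ω ∂μ, Tendsto (fun n => L n ω / f n) atTop (𝓝 1)

/-- JOB FS (finite support).  Almost surely all samples are in the support `s`, so `LIS ≤ card s`; and almost
surely every letter of `s` occurs infinitely often (independence: the probability that `i` does not occur in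
`[m, m+l)` is `(1 - p i)^l → 0`), so the letters of `s` occur in increasing order and `LIS = card s` eventually. -/
def S_FS : Prop := ∀ (Ω : Type) [MeasurableSpace Ω] (μ : Measure Ω) [IsProbabilityMeasure μ]
  (X : ℕ → Ω → ℕ) (p : ℕ → ℝ), Samp μ X p → ∀ s : Finset ℕ, {i | 0 < p i} = s →
  ∀ᵐ ω ∂μ, ∀ᶠ n in atTop, LIS (fun k => X k ω) n = s.card

end Pool.Agent.Q75.IS
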