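import Pool.Agent.Q75.IS.Stm

/-!
Project IS (helper75): the law of the process after `n` slots, given the one-step stationarity.
-/

set_option autoImplicit false

open Finset

namespace Pool.Agent.Q75.IS

/-- the law of `run D w` under `Eb ⊗ Ex` is the law of `D` -/
theorem Eb_run (h : S_STA) {P : ℕ → ℝ} {M : ℕ} (hP : Law P M) (n : ℕ) (g : Finset ℕ → ℝ) :
    Eb (rh P (P 1)) M (fun D => Ex P M n (fun w => g (run D w))) = Eb (rh P (P 1)) M g := by
  induction n with
  | zero => rfl
  | succ n ih =>
    have e1 : (fun D : Finset ℕ => Ex P M (n + 1) (fun w => g (run D w)))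
        = fun D => ∑ e ∈ range M, P e * Ex P M n (fun w => g (run (step e D) w)) := by
      funext D; rfl
    rw [e1]
    have e2 : Eb (rh P (P 1)) M
        (fun D => ∑ e ∈ range M, P e * Ex P M n (fun w => g (run (step e D) w)))
        = ∑ e ∈ range M, P e * Eb (rh P (P 1)) M
          (fun D => (fun D' => Ex P M n (fun w => g (run D' w))) (step e D)) := by
      unfold Eb
      simp only [Finset.mul_sum]
      rw [Finset.sum_comm]
      refine Finset.sum_congr rfl fun e _ => Finset.sum_congr rfl fun D _ => ?_
      ring
    rw [e2, h P M hP (fun D' => Ex P M n (fun w => g (run D' w))), ih]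

end Pool.Agent.Q75.IS
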